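import Pool.Agent.helper20.ZD.K2B

set_option autoImplicit false

open Complex MeasureTheory

namespace Pool.Agent.ZD

open Pool.Agent.helper84.DM Pool.Agent.helper78.ED Pool.Agent.DH

/-- one term -/
theorem K3B_term (h1 : CHX_stmt) (h2 : PHS_stmt) (h3 : RD_stmt) (h4 : SBO_stmt) :
    ∃ C : ℝ, 0 ≤ C ∧ ∀ a b ξ : ℝ, |a| ≤ 5 → |b| ≤ 5 →
      ‖∫ y : ℝ, ((phi (y + a) * phi (y + b) * phi y : ℝ) : ℂ) * ee (-(ξ * Real.exp y))‖ ≤
        C * kap ξ := by
  have hSB : SB (fun y => ((Phi y : ℝ) : ℂ)) := h2.2.1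
  obtain ⟨hd, hx, -, -, B0, hB0, hB0'⟩ := h4 _ hSB
  obtain ⟨hdd, -, -, -, B1, hB1, hB1'⟩ := h4 _ hd
  obtain ⟨-, -, -, -, B2, hB2, hB2'⟩ := h4 _ hdd
  obtain ⟨-, hxx, -, -, -⟩ := h4 _ hx
  have hbd : ∃ B : ℝ, ∀ x, ‖(fun y => ((Phi y : ℝ) : ℂ)) x‖ ≤ B ∧
      ‖deriv (fun y => ((Phi y : ℝ) : ℂ)) x‖ ≤ B ∧
      ‖deriv (deriv (fun y => ((Phi y : ℝ) : ℂ))) x‖ ≤ B :=
    ⟨max B0 (max B1 B2), fun x => ⟨(hB0' x).trans (le_max_left _ _),
      (hB1' x).trans ((le_max_left _ _).trans (le_max_right _ _)),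
      (hB2' x).trans ((le_max_right _ _).trans (le_max_right _ _))⟩⟩
  obtain ⟨C, hC, hC'⟩ := h3 (fun y => ((Phi y : ℝ) : ℂ)) (fun y => ((Phi y : ℝ) : ℂ))
    (fun x => (x : ℂ) * ((x : ℂ) * ((Phi x : ℝ) : ℂ))) (contDiff_infty.1 hSB.1 2)
    (contDiff_infty.1 hSB.1 2) hxx hbd hbd
  refine ⟨Real.exp 5 * Real.exp 5 * C, mul_nonneg (by positivity) hC, ?_⟩
  intro a b ξ ha hb
  have hkap : 0 ≤ kap ξ := by
    unfold kap
    positivity
  have hα : |Real.exp a| ≤ Real.exp 5 := by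
    rw [abs_of_pos (Real.exp_pos a)]
    exact Real.exp_le_exp.2 (le_of_abs_le ha)
  have hβ : |Real.exp b| ≤ Real.exp 5 := by
    rw [abs_of_pos (Real.exp_pos b)]
    exact Real.exp_le_exp.2 (le_of_abs_le hb)
  have h5 := hC' (Real.exp a) (Real.exp b) ξ hα hβ
  have h6 : ∫ y : ℝ, ((phi (y + a) * phi (y + b) * phi y : ℝ) : ℂ) * ee (-(ξ * Real.exp y)) =
      ((Real.exp a * Real.exp b : ℝ) : ℂ) * ∫ s : ℝ, (fun y => ((Phi y : ℝ) : ℂ)) (Real.exp a * s) *
        (fun y => ((Phi y : ℝ) : ℂ)) (Real.exp b * s) *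
        (fun x : ℝ => (x : ℂ) * ((x : ℂ) * ((Phi x : ℝ) : ℂ))) s * ee (-(ξ * s)) := by
    have h7 := h1.1 (fun s => ((Phi (Real.exp a * s) : ℝ) : ℂ) * ((Real.exp a : ℝ) : ℂ) * (s : ℂ) *
      (((Phi (Real.exp b * s) : ℝ) : ℂ) * ((Real.exp b : ℝ) : ℂ) * (s : ℂ)) * ee (-(ξ * s)))
    rw [← integral_const_mul]
    have h8 : ∀ y : ℝ, ((phi (y + a) * phi (y + b) * phi y : ℝ) : ℂ) * ee (-(ξ * Real.exp y)) =
        ((phi y : ℝ) : ℂ) * ((((Phi (Real.exp a * Real.exp y) : ℝ) : ℂ) * ((Real.exp a : ℝ) : ℂ) *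
          ((Real.exp y : ℝ) : ℂ)) * (((Phi (Real.exp b * Real.exp y) : ℝ) : ℂ) *
          ((Real.exp b : ℝ) : ℂ) * ((Real.exp y : ℝ) : ℂ)) * ee (-(ξ * Real.exp y))) := by
      intro y
      have h9 : ∀ c : ℝ, phi (y + c) = Phi (Real.exp c * Real.exp y) *
          (Real.exp c * Real.exp y) := by
        intro c
        unfold phi
        rw [Real.exp_add, mul_comm (Real.exp y)]
      rw [h9, h9]
      push_cast
      ring
    simp only [h8]
    rw [← h7]
    congr 1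
    funext s
    push_cast
    ring
  rw [h6, norm_mul]
  have h10 : ‖((Real.exp a * Real.exp b : ℝ) : ℂ)‖ = |Real.exp a| * |Real.exp b| := by
    rw [Complex.norm_real, Real.norm_eq_abs, abs_mul]
  rw [h10, mul_assoc (Real.exp 5 * Real.exp 5)]
  exact mul_le_mul (mul_le_mul hα hβ (abs_nonneg _) (Real.exp_pos 5).le) h5 (norm_nonneg _)
    (by positivity)

/-- K3B -/
theorem K3B (h1 : CHX_stmt) (h2 : PHS_stmt) (h3 : RD_stmt) (h4 : SBO_stmt) (_h5 : GEC_stmt) :
    K3B_stmt := by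
  obtain ⟨C, hC, hC'⟩ := K3B_term h1 h2 h3 h4
  refine ⟨C + 1, by linarith, ?_⟩
  intro X M a b hX
  have hkap : ∀ x : ℝ, 0 ≤ kap x := by
    intro x
    unfold kap
    positivity
  have hbig : (5 < |a| ∨ 5 < |b| ∨ 5 < |a - b|) →
      ∫ s : ℝ, GE X M (s + a) * GE X M (s + b) * GE X M s = 0 := by
    intro hab
    have h6 : ∀ s : ℝ, GE X M (s + a) * GE X M (s + b) * GE X M s = 0 := by
      intro s
      have h7 : phi (s + a) * phi (s + b) * phi s = 0 := by
        rcases hab with h | h | h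
        · have := K2B_phi_pair h2 s a h
          rw [mul_right_comm, this, zero_mul]
        · have := K2B_phi_pair h2 s b h
          rw [mul_assoc, this, mul_zero]
        · have := K2B_phi_pair h2 (s + b) (a - b) h
          rw [show s + b + (a - b) = s + a by ring] at this
          rw [this, zero_mul]
      unfold GE
      rcases mul_eq_zero.1 h7 with h8 | h8
      · rcases mul_eq_zero.1 h8 with h9 | h9
        · rw [h9]
          simp
        · rw [h9]
          simp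
      · rw [h8]
        simp
    simp only [h6, integral_zero]
  refine ⟨hbig, ?_⟩
  have hS : 0 ≤ ∑ m₁ ∈ MM M, ∑ m₂ ∈ MM M, ∑ m₃ ∈ MM M,
      kap (X * ((m₁ : ℝ) * Real.exp a + (m₂ : ℝ) * Real.exp b + m₃)) :=
    Finset.sum_nonneg (fun m _ => Finset.sum_nonneg (fun m' _ =>
      Finset.sum_nonneg (fun m'' _ => hkap _)))
  by_cases hab : 5 < |a| ∨ 5 < |b| ∨ 5 < |a - b|
  · rw [hbig hab, norm_zero]
    exact mul_nonneg (mul_nonneg (by linarith) (pow_nonneg hX 3)) hS
  · push Not at hab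
    obtain ⟨ha, hb, -⟩ := hab
    have hphc : Continuous phi := by
      unfold phi
      exact (h2.1.continuous.comp Real.continuous_exp).mul Real.continuous_exp
    have hint : ∀ ξ : ℝ, Integrable (fun y : ℝ =>
        ((phi (y + a) * phi (y + b) * phi y : ℝ) : ℂ) * ee (-(ξ * Real.exp y))) := by
      intro ξ
      apply Continuous.integrable_of_hasCompactSupport
      · have h7 : Continuous (fun y : ℝ => phi (y + a) * phi (y + b) * phi y) :=
          ((hphc.comp (continuous_id.add continuous_const)).mul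
            (hphc.comp (continuous_id.add continuous_const))).mul hphc
        have h8 : Continuous (fun y : ℝ => ee (-(ξ * Real.exp y))) :=
          K2B_ee_cont.comp (continuous_const.mul Real.continuous_exp).neg
        exact (Complex.continuous_ofReal.comp h7).mul h8
      · apply HasCompactSupport.intro (isCompact_Icc : IsCompact (Set.Icc (-5 : ℝ) 5))
        intro y hy
        rw [K2B_phi_cpt h2 y hy]
        simp
    have hexp : ∀ s : ℝ, GE X M (s + a) * GE X M (s + b) * GE X M s =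
        ∑ m₁ ∈ MM M, ∑ m₂ ∈ MM M, ∑ m₃ ∈ MM M, ((X : ℂ) ^ 3 *
          (((phi (s + a) * phi (s + b) * phi s : ℝ) : ℂ) *
          ee (-((X * ((m₁ : ℝ) * Real.exp a + (m₂ : ℝ) * Real.exp b + m₃)) * Real.exp s)))) := by
      intro s
      unfold GE EE
      have h9 : ∀ S T U : ℂ, ((phi (s + a) : ℝ) : ℂ) * ((X : ℂ) * S) *
          (((phi (s + b) : ℝ) : ℂ) * ((X : ℂ) * T)) * (((phi s : ℝ) : ℂ) * ((X : ℂ) * U)) =
          ((X : ℂ) ^ 3 * ((phi (s + a) * phi (s + b) * phi s : ℝ) : ℂ)) * (S * (T * U)) := by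
        intro S T U
        push_cast
        ring
      rw [h9, Finset.sum_mul_sum (MM M) (MM M), Finset.sum_mul, Finset.mul_sum]
      apply Finset.sum_congr rfl
      intro m₁ _
      rw [Finset.mul_sum, Finset.mul_sum]
      apply Finset.sum_congr rfl
      intro m₂ _
      rw [Finset.mul_sum, Finset.mul_sum]
      apply Finset.sum_congr rfl
      intro m₃ _
      rw [K2B_ee_add, K2B_ee_add, mul_assoc]
      congr 3
      rw [Real.exp_add, Real.exp_add]
      ring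
    simp only [hexp]
    rw [integral_finsetSum _ (fun m _ => integrable_finsetSum _ (fun m' _ =>
      integrable_finsetSum _ (fun m'' _ => (hint _).const_mul _)))]
    rw [Finset.mul_sum]
    refine (norm_sum_le _ _).trans (Finset.sum_le_sum ?_)
    intro m₁ _
    rw [integral_finsetSum _ (fun m' _ =>
      integrable_finsetSum _ (fun m'' _ => (hint _).const_mul _)), Finset.mul_sum]
    refine (norm_sum_le _ _).trans (Finset.sum_le_sum ?_)
    intro m₂ _
    rw [integral_finsetSum _ (fun m'' _ => (hint _).const_mul _), Finset.mul_sum]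
    refine (norm_sum_le _ _).trans (Finset.sum_le_sum ?_)
    intro m₃ _
    rw [integral_const_mul, norm_mul, norm_pow, Complex.norm_real, Real.norm_eq_abs,
      abs_of_nonneg hX]
    have h11 := hC' a b (X * ((m₁ : ℝ) * Real.exp a + (m₂ : ℝ) * Real.exp b + m₃)) ha hb
    have h12 := hkap (X * ((m₁ : ℝ) * Real.exp a + (m₂ : ℝ) * Real.exp b + m₃))
    have h13 : (C + 1) * X ^ 3 *
        kap (X * ((m₁ : ℝ) * Real.exp a + (m₂ : ℝ) * Real.exp b + m₃)) =
        X ^ 3 * (C * kap (X * ((m₁ : ℝ) * Real.exp a + (m₂ : ℝ) * Real.exp b + m₃))) +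
          X ^ 3 * kap (X * ((m₁ : ℝ) * Real.exp a + (m₂ : ℝ) * Real.exp b + m₃)) := by ring
    rw [h13]
    have h14 := mul_le_mul_of_nonneg_left h11 (pow_nonneg hX 3)
    have h15 := mul_nonneg (pow_nonneg hX 3) h12
    linarith

end Pool.Agent.ZD
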