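import Pool.Agent.helper90.ZD.Defs

/-!
# Project zd (MP_4467b5_nt): zero density with the constant 39/17. Part B: large values

Paper: `/team-store/MP_4467b5_GM_helper90.md` (sections 1 (R4), 2, 4, 5, 6).
Module `XX` proves `theorem XX (h1 : AA_stmt) (h2 : BB_stmt) … : XX_stmt` in the file
`Pool/Agent/<seat>/ZD/XX.lean`, namespace `Pool.Agent.ZD`, `import Pool.Agent.helper90.ZD.SpecB`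
(plus library files), `open Complex MeasureTheory` and
`open Pool.Agent.helper84.DM Pool.Agent.helper78.ED Pool.Agent.DH` (for the positive semidefinite
matrices also `open scoped ComplexOrder`). Any statement of this file, of
`Defs` (`R3_stmt`, `CUB_stmt`) and of `Pool.Agent.DH` (`RID_stmt`, `EXPN_stmt`, `QID_stmt`,
`QTR_stmt`, `DUA_stmt`, `RSQ_stmt`, all proved) may be a hypothesis (no circles). Auxiliary lemmas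
are prefixed `XX_`. No `sorry`, no double quotes.

Library: `Pool.Agent.helper59.DM.DV` (`divisor_bound`), `Pool.Agent.helper93.ED.WG` (`wg_lower`,
`SS_triv`, `wg_nonneg`), `Pool.Agent.helper63.ED.PW` (`pow_poly`, `PW_mul`, `PW_d_pos`),
`Pool.Agent.helper78.ED.CO` (`CO_log`), `Pool.Agent.helper78.ED.LV` (`LV_unim`, `LV_cpow`).
Notation in the docstrings: `R = W.card`, `N = N₀²`, `V = V₀²`.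
-/

set_option autoImplicit false

open Complex MeasureTheory
open scoped ComplexOrder

namespace Pool.Agent.ZD

open Pool.Agent.helper84.DM Pool.Agent.helper78.ED Pool.Agent.DH

/-! ## B1: the double sums `QW` -/

/-- **BQ1** (short). uses: QID_stmt. `QW` is `QQ` for the set `{i t}`.
Proof. `t ↦ t * I` is injective and `(t * I).im = t`; `Finset.sum_image` twice. -/
def BQ1_stmt : Prop := ∀ (W : Finset ℝ) (L : ℕ),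
  QW W L = QQ (W.image fun t : ℝ => ((t : ℝ) : ℂ) * I) L

/-- **BQ2** (short). uses: BQ1_stmt, QTR_stmt. -/
def BQ2_stmt : Prop := ∀ (W : Finset ℝ) (L : ℕ), (L : ℝ) * (W.card : ℝ) ^ 2 ≤ QW W L

/-- **BPS** (medium). uses: EXPN_stmt (or nothing). Positivity.
Proof. With `R(k,l) = ∑ t, k^(-it) l^(it)`:
`∑ t t', ‖∑ k ∈ A, b k k^(-i(t-t'))‖² = ∑ k l ∈ A, b k b l ‖R(k,l)‖²` (multiply out; `b` real), which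
is at most `B² ∑ k l ∈ A, ‖R(k,l)‖² ≤ B² ∑ k l ∈ A', ‖R(k,l)‖²`; the same identity with `b = 1` for
`A'`. -/
def BPS_stmt : Prop := ∀ (W : Finset ℝ) (A A' : Finset ℕ) (b : ℕ → ℝ) (B : ℝ), 0 ∉ A' → A ⊆ A' →
  (∀ k ∈ A, 0 ≤ b k ∧ b k ≤ B) →
  ∑ t ∈ W, ∑ t' ∈ W, ‖∑ k ∈ A, ((b k : ℝ) : ℂ) * (k : ℂ) ^ (-(((t - t' : ℝ) : ℂ) * I))‖ ^ 2
    ≤ B ^ 2 * ∑ t ∈ W, ∑ t' ∈ W, ‖PL A' (t - t')‖ ^ 2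

/-- **BSQ** (medium). uses: BPS_stmt. Fourth moment.
Proof. `PL A u ^ 2 = ∑ k ∈ K, r k * k^(-iu)`, `r k = #{(m,n) ∈ A × A : m n = k} ≤ d k ≤ D` (`m ∣ k`
determines `n`; `PW_mul`), `‖PL‖⁴ = ‖PL²‖²`; BPS with `A = A' = K`, `b = r`. -/
def BSQ_stmt : Prop := ∀ (W : Finset ℝ) (A K : Finset ℕ) (D : ℝ), 0 ∉ K →
  (∀ m ∈ A, ∀ n ∈ A, m * n ∈ K) → (∀ k ∈ K, d k ≤ D) →
  ∑ t ∈ W, ∑ t' ∈ W, ‖PL A (t - t')‖ ^ 4 ≤ D ^ 2 * ∑ t ∈ W, ∑ t' ∈ W, ‖PL K (t - t')‖ ^ 2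

/-- **BM1** (medium). uses: BQ1_stmt, EXPN_stmt/QID_stmt (or nothing). Compare `MONO` in
`Pool/Agent/helper24/DH/MONO.lean` (copy it). Monotonicity, one block.
Proof. Both sides are sums of `‖R(n,m)‖²`, `R(n,m) = ∑ t, n^(-it) m^(it)`, over `n, m` in the block,
and `R(nj,mj) = R(n,m)`. `L ≥ 1`. `q = L / Y` (natural division).
If `q ≥ 1`: for `n ∈ (Y,2Y]`, `j ∈ (q,4q]`: `L < Y (q+1) < n j ≤ 2Y·4q ≤ 8L`. So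
`3q ∑ n m ‖R(n,m)‖² ≤ D QW W L` (a pair `(x,y)` is `(nj,mj)` for at most `d x ≤ D` triples) and
`L < Y (q+1) ≤ 2 Y q`. If `q = 0`: `L < Y`, `(Y,2Y] ⊆ (L,8L]`, and `D ≥ 1`. -/
def BM1_stmt : Prop := ∀ (W : Finset ℝ) (Y L : ℕ) (D : ℝ), 1 ≤ Y → Y ≤ 4 * L →
  (∀ k ∈ IL L, d k ≤ D) →
  (L : ℝ) * ∑ t ∈ W, ∑ t' ∈ W, ‖PL (Finset.Ioc Y (2 * Y)) (t - t')‖ ^ 2 ≤ 4 * Y * D * QW W L

/-- **BM2** (short). uses: BM1_stmt; library: `divisor_bound`. Monotonicity.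
Proof. `IL h = (h,2h] ∪ (2h,4h] ∪ (4h,8h]`, `‖a+b+c‖² ≤ 3(‖a‖²+‖b‖²+‖c‖²)`, BM1 with
`Y = h, 2h, 4h`, `D = C (8 T^6)^(ε/6) ≤ C' T^ε`. -/
def BM2_stmt : Prop := ∀ ε : ℝ, 0 < ε → ∃ C : ℝ, 0 < C ∧ ∀ T : ℝ, 1 ≤ T → ∀ (W : Finset ℝ)
  (h L : ℕ), 1 ≤ h → h ≤ L → (L : ℝ) ≤ T ^ (6 : ℕ) → (L : ℝ) * QW W h ≤ C * T ^ ε * h * QW W L

/-- **BR1** (medium). uses: BQ1_stmt, DUA_stmt, RSQ_stmt; library: `wg_lower`, `SS_triv`. Reflection.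
Proof. `Z = {i t}`. DUA with `c = 1`, `A = B = IL M`; `e^(-9) ≤ wg M x` for `x ∈ IL M` (`wg_lower`,
`k = 3`): `e^(-9) QQ Z M ≤ ∑ ‖SS M 0 τ‖ ‖PL (IL M) τ‖ ≤ (∑ ‖SS M 0 τ‖²)^(1/2) (QW W M)^(1/2)`, so
`QW W M ≤ e^18 ∑ t t', ‖SS M 0 (t-t')‖²`. The terms `t = t'` are `≤ C M²` each (`SS_triv`). The
others have `log T ≤ T^δ ≤ |t-t'| ≤ T` (`T ≥ T₀`), and RSQ with `ε' = min ε δ`, `z = 0`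
(`T^(1+ε') ≤ M L`) gives `L ∑ ≤ C T^ε M QQ Z L`. -/
def BR1_stmt : Prop := ∀ ε δ : ℝ, 0 < ε → 0 < δ → ∃ C T₀ : ℝ, 0 < C ∧ ∀ T : ℝ, T₀ ≤ T →
  ∀ W : Finset ℝ, Sep δ T W → ∀ M L : ℕ, 1 ≤ M → 1 ≤ L → (M : ℝ) ≤ T ^ (5 : ℕ) →
  (L : ℝ) ≤ T ^ (5 : ℕ) → T ^ (1 + δ) ≤ (M : ℝ) * L →
  (L : ℝ) * QW W M ≤ C * T ^ ε * (L * (W.card : ℝ) * (M : ℝ) ^ 2 + M * QW W L)

/-- The quantity `S = R² + R^(3/2) T^((1+δ)/3)`. -/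
noncomputable def S0 (δ T : ℝ) (W : Finset ℝ) : ℝ :=
  (W.card : ℝ) ^ 2 + (W.card : ℝ) ^ (3 / 2 : ℝ) * T ^ ((1 + δ) / 3)

/-- **BR4** (medium/long). uses: BSQ_stmt, BM2_stmt, BR1_stmt; library: `divisor_bound`.
Proof. `G = T^((1+δ)/3) ≥ 1`, `L₀ = 2 ⌈G⌉₊`, `2G ≤ L₀ ≤ 4G`, `h ≤ L₀`; `Q = QW W L₀`.
Cauchy over the `R²` pairs: `Q² ≤ R² ∑ ‖PL (IL L₀)‖⁴`; BSQ with `A = IL L₀`,
`K = Ioc (L₀²) (64 L₀²) = IL (L₀²) ∪ IL (8 L₀²)`, `D ≤ C T^ε'`;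
`∑ ‖PL K‖² ≤ 2 QW W (L₀²) + 2 QW W (8 L₀²)`. BR1 with `M = L₀²` and `M = 8 L₀²`, `L = L₀`
(`M L₀ ≥ L₀³ ≥ 8 G³ ≥ T^(1+δ)`): `QW W M ≤ C T^ε' (R L₀⁴ + L₀ Q)`. So
`Q² ≤ E R² (R L₀⁴ + L₀ Q)`, `E = C T^(3ε') ≥ 1`, hence `Q ≤ E (R^(3/2) L₀² + R² L₀)`
(`Q² ≤ a + b Q → Q ≤ a^(1/2) + b`). BM2: `L₀ QW W h ≤ C T^ε' h Q`, so
`QW W h ≤ C T^ε' E h (R^(3/2) L₀ + R²)`. -/
def BR4_stmt : Prop := ∀ ε δ : ℝ, 0 < ε → 0 < δ → δ ≤ 1 → ∃ C T₀ : ℝ, 0 < C ∧ ∀ T : ℝ, T₀ ≤ T →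
  ∀ W : Finset ℝ, Sep δ T W → ∀ h : ℕ, 1 ≤ h → (h : ℝ) ≤ 2 * T ^ ((1 + δ) / 3) →
  QW W h ≤ C * T ^ ε * h * S0 δ T W

/-- **BR5** (short). uses: BR1_stmt, BR4_stmt.
Proof. `h = ⌈T^(1+δ)/N⌉₊`, `1 ≤ h ≤ T^(1+δ)/N + 1 ≤ 2 T^((1+δ)/3)`. BR1 with `M = N`, `L = h`:
`h QW W N ≤ C T^ε' (h R N² + N QW W h) ≤ C' T^(2ε') h (R N² + N S0)`. -/
def BR5_stmt : Prop := ∀ ε δ : ℝ, 0 < ε → 0 < δ → δ ≤ 1 / 10 → ∃ C T₀ : ℝ, 0 < C ∧ ∀ T : ℝ,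
  T₀ ≤ T → ∀ W : Finset ℝ, Sep δ T W → ∀ N : ℕ, T ^ (2 / 3 * (1 + δ)) ≤ (N : ℝ) → (N : ℝ) ≤ T →
  QW W N ≤ C * T ^ ε * ((W.card : ℝ) * (N : ℝ) ^ 2 + N * S0 δ T W)

/-! ## B2: one-sided Halász–Montgomery inequality and the spectral lemma -/

/-- **BPH** (short). uses: nothing. The weight `Phi` (`Real.smoothTransition.zero_iff_nonpos`,
`one_of_one_le`, `nonneg`, `le_one`). -/
def BPH_stmt : Prop := (∀ y : ℝ, 0 ≤ Phi y ∧ Phi y ≤ 1) ∧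
  (∀ y : ℝ, 1 ≤ y → y ≤ 32 → Phi y = 1) ∧ (∀ y : ℝ, y ≤ 1 / 2 → Phi y = 0) ∧
  (∀ y : ℝ, 64 ≤ y → Phi y = 0)

/-- **BMU** (short). uses: BPH_stmt. -/
def BMU_stmt : Prop := ∀ X : ℝ, 1 ≤ X → 0 ≤ mu X ∧ mu X ≤ 64 * X

/-- The sum `∑ t ∈ W, c t x^(-it) y^(it)`. -/
noncomputable def RW (W : Finset ℝ) (c : ℝ → ℂ) (x y : ℕ) : ℂ :=
  ∑ t ∈ W, c t * ((x : ℂ) ^ (-((t : ℂ) * I)) * (y : ℂ) ^ ((t : ℂ) * I))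

/-- The bilinear sum of the Halász–Montgomery inequality. -/
noncomputable def TRC (W : Finset ℝ) (c : ℝ → ℂ) (X : ℝ) (L : ℕ) : ℂ :=
  ∑ t ∈ W, ∑ t' ∈ W, c t * (starRingEnd ℂ) (c t') * BX X (t - t') *
    (starRingEnd ℂ) (PL (IL L) (t - t'))

/-- **BH1** (medium). uses: QLO_stmt or nothing; library: `LV_unim`. Copy of `HMA`
(`Pool/Agent/helper29/DH/HMA.lean`).
Proof. `c t D(t) = ‖D(t)‖`, `‖c t‖ ≤ 1`, `D = DG (Ioc N (4N)) b`. For `x, y ∈ IL L`: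
`∑ t, ‖D(t)‖ x^(-it) y^(it) = ∑ n, b n RW W c (n x) y`, Cauchy–Schwarz in `n`, sum over `x, y`; the
left side is `∑ t t', ‖D(t)‖ ‖D(t')‖ ‖PL (IL L) (t-t')‖² ≥ V² QW W L`. -/
def BH1_stmt : Prop := ∀ (W : Finset ℝ) (N L : ℕ) (b : ℕ → ℂ) (V : ℝ), 0 ≤ V →
  (∀ t ∈ W, V ≤ ‖DG (Finset.Ioc N (4 * N)) b t‖) → ∃ c : ℝ → ℂ, (∀ t, ‖c t‖ ≤ 1) ∧
    V ^ 2 * QW W L ≤ (∑ n ∈ Finset.Ioc N (4 * N), ‖b n‖ ^ 2) *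
      ∑ n ∈ Finset.Ioc N (4 * N), ∑ x ∈ IL L, ∑ y ∈ IL L, ‖RW W c (n * x) y‖ ^ 2

/-- **BH2** (medium). uses: BPH_stmt. Compare `GRP` and `DUA` (`Pool/Agent/helper59/DH/GRP.lean`,
`Pool/Agent/helper41/DH/DUA.lean`).
Proof. `k = n x ∈ (N L, 32 N L]` has at most `d k ≤ D` representations; `Phi (k/(N L)) = 1` there;
all terms are `≥ 0` so extend to `k ∈ Icc 1 ⌊64 N L⌋`. Multiply out: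
`∑ k, Phi (k/X) ∑ y, ‖RW W c k y‖² = ∑ t t', c t conj (c t') BX X (t-t') conj (PL (IL L) (t-t'))`
(`conj (y^(-iu)) = y^(iu)`). -/
def BH2_stmt : Prop := ∀ (W : Finset ℝ) (c : ℝ → ℂ) (N L : ℕ) (D : ℝ), 1 ≤ N → 1 ≤ L →
  (∀ k : ℕ, 1 ≤ k → k ≤ 32 * (N * L) → d k ≤ D) →
  ∑ n ∈ Finset.Ioc N (4 * N), ∑ x ∈ IL L, ∑ y ∈ IL L, ‖RW W c (n * x) y‖ ^ 2
    ≤ D * (TRC W c ((N : ℝ) * L) L).re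

/-- **BS1** (medium/long). uses: nothing. Simultaneous diagonal data.
Proof. Spectral theorem for `B` (`Matrix.IsHermitian.spectral_theorem`): `B = U diag(lam) U*`,
`lam ≥ 0`. `G' = U* G U` is positive semidefinite, `g i = re (G' i i) = G' i i ≥ 0`.
`tr B³ = ∑ lam³`, `tr (B G) = tr (diag(lam) G') = ∑ lam g`, `tr G' = tr G`,
`∑ i j, ‖G' i j‖² = tr (G'* G') = tr (G* G) = ∑ i j, ‖G i j‖²` and `∑ g² ≤ ∑ i j, ‖G' i j‖²`. -/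
def BS1_stmt : Prop := ∀ (ι : Type) [Fintype ι] [DecidableEq ι] (B G : Matrix ι ι ℂ),
  B.PosSemidef → G.PosSemidef → ∃ lam g : ι → ℝ, (∀ i, 0 ≤ lam i) ∧ (∀ i, 0 ≤ g i) ∧
    B.trace = ((∑ i, lam i : ℝ) : ℂ) ∧ (B * B * B).trace = ((∑ i, lam i ^ 3 : ℝ) : ℂ) ∧
    G.trace = ((∑ i, g i : ℝ) : ℂ) ∧ ∑ i, g i ^ 2 ≤ ∑ i, ∑ j, ‖G i j‖ ^ 2 ∧
    (B * G).trace = ((∑ i, lam i * g i : ℝ) : ℂ)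

/-- **BS2** (medium, real numbers). uses: nothing.
Proof. `F = ∑ (lam-μ)² (lam+2μ) = ∑ lam³ - 3μ² ∑ lam + 2μ³ card = ∑ lam³ - card μ³ ≥ 0`. The `i` with
`lam i ≤ 2μ` contribute at most `2μ ∑ g` to `∑ lam g`. On the others `lam³ ≤ 4 (lam-μ)² (lam+2μ)`,
and Hölder: `∑' lam g ≤ (∑' lam³)^(1/3) (∑' g^(3/2))^(2/3)`,
`∑' g^(3/2) ≤ (∑' g)^(1/2) (∑' g²)^(1/2)`. (`Real.inner_le_Lp_mul_Lq`.) -/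
def BS2_stmt : Prop := ∀ (ι : Type) [Fintype ι] (lam g : ι → ℝ) (μ : ℝ), 0 ≤ μ →
  (∀ i, 0 ≤ lam i) → (∀ i, 0 ≤ g i) → ∑ i, lam i = (Fintype.card ι : ℝ) * μ →
  0 ≤ ∑ i, lam i ^ 3 - (Fintype.card ι : ℝ) * μ ^ 3 ∧
  ∑ i, lam i * g i ≤ 2 * μ * ∑ i, g i +
    (4 * (∑ i, lam i ^ 3 - (Fintype.card ι : ℝ) * μ ^ 3)) ^ (1 / 3 : ℝ) *
      (∑ i, g i) ^ (1 / 3 : ℝ) * (∑ i, g i ^ 2) ^ (1 / 3 : ℝ)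

/-- **BSP** (short). uses: BS1_stmt, BS2_stmt. The spectral lemma. -/
def BSP_stmt : Prop := ∀ (ι : Type) [Fintype ι] [DecidableEq ι] (B G : Matrix ι ι ℂ) (μ : ℝ),
  B.PosSemidef → G.PosSemidef → 0 ≤ μ → (∀ i, B i i = (μ : ℂ)) →
  0 ≤ (B * B * B).trace.re - (Fintype.card ι : ℝ) * μ ^ 3 ∧
  (B * G).trace.re ≤ 2 * μ * G.trace.re +
    (4 * ((B * B * B).trace.re - (Fintype.card ι : ℝ) * μ ^ 3)) ^ (1 / 3 : ℝ) *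
      (G.trace.re) ^ (1 / 3 : ℝ) * (∑ i, ∑ j, ‖G i j‖ ^ 2) ^ (1 / 3 : ℝ)

/-- The matrix `B(t-t')`. -/
noncomputable def BMat (W : Finset ℝ) (X : ℝ) : Matrix W W ℂ :=
  Matrix.of fun t t' => BX X ((t : ℝ) - (t' : ℝ))

/-- The matrix `G`, `G(t',t) = c t conj (c t') conj (PL (IL L) (t-t'))`. -/
noncomputable def GMat (W : Finset ℝ) (c : ℝ → ℂ) (L : ℕ) : Matrix W W ℂ :=
  Matrix.of fun t' t => c (t : ℝ) * (starRingEnd ℂ) (c (t' : ℝ)) *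
    (starRingEnd ℂ) (PL (IL L) ((t : ℝ) - (t' : ℝ)))

/-- **BT1** (medium). uses: BPH_stmt.
Proof. `BMat = ∑ k, Phi (k/X) v_k v_k*`, `v_k t = k^(-it)` (`Matrix.posSemidef_vecMulVec_self_star`,
sums and nonnegative multiples of positive semidefinite matrices); `GMat = ∑ l ∈ IL L, w_l w_l*`,
`w_l t' = conj (c t') l^(-it')`. `BX X 0 = mu X` (`k^0 = 1`). -/
def BT1_stmt : Prop := ∀ (W : Finset ℝ) (c : ℝ → ℂ) (X : ℝ) (L : ℕ),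
  (BMat W X).PosSemidef ∧ (GMat W c L).PosSemidef ∧ ∀ t, BMat W X t t = ((mu X : ℝ) : ℂ)

/-- **BT2** (medium). uses: nothing.
Proof. `tr (B G) = ∑ t t', B(t,t') G(t',t)` (`Finset.sum_coe_sort`). `G(t,t) = ‖c t‖² · 7L` (`7L` terms
`l^0 = 1`), `‖G(t',t)‖ ≤ ‖PL (IL L) (t-t')‖`. -/
def BT2_stmt : Prop := ∀ (W : Finset ℝ) (c : ℝ → ℂ) (X : ℝ) (L : ℕ), (∀ t, ‖c t‖ ≤ 1) →
  (BMat W X * GMat W c L).trace = TRC W c X L ∧ 0 ≤ (GMat W c L).trace.re ∧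
  (GMat W c L).trace.re ≤ 7 * L * (W.card : ℝ) ∧
  ∑ t, ∑ t', ‖GMat W c L t t'‖ ^ 2 ≤ QW W L

/-- The sum of `‖B(t-t')‖²` over the pairs of distinct elements. -/
noncomputable def SD (X : ℝ) (W : Finset ℝ) : ℝ :=
  ∑ t ∈ W, ∑ t' ∈ W, (if t = t' then 0 else ‖BX X (t - t')‖ ^ 2)

/-- **BT3** (medium). uses: BT1_stmt.
Proof. `tr B³ = ∑ t₁ t₂ t₃, B(t₁-t₂) B(t₂-t₃) B(t₃-t₁)`. All equal: `R (mu X)³`. Exactly two equal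
(three ways): `mu X * B(u) B(-u) = mu X ‖B(u)‖²` (`B(-u) = conj B(u)`). All distinct: `CS X W`. -/
def BT3_stmt : Prop := ∀ (W : Finset ℝ) (X : ℝ),
  (BMat W X * BMat W X * BMat W X).trace =
    (((W.card : ℝ) * mu X ^ 3 + 3 * mu X * SD X W : ℝ) : ℂ) + CS X W

/-- **BHS** (medium). uses: BH1_stmt, BH2_stmt, BSP_stmt, BT1_stmt, BT2_stmt, BT3_stmt, BMU_stmt.
Proof. BH1, BH2 and `∑ ‖b n‖² ≤ 3 N A²`: `V² QW ≤ 3 N A² D re (TRC …)`, and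
`re TRC = re tr (B G)` is bounded by BSP with `tr B³ - R μ³ = re CS + 3 μ SD ≤ ‖CS‖ + 3 μ SD`. -/
def BHS_stmt : Prop := ∀ (W : Finset ℝ) (N L : ℕ) (b : ℕ → ℂ) (A V D : ℝ), 1 ≤ N → 1 ≤ L →
  0 ≤ V → (∀ k : ℕ, 1 ≤ k → k ≤ 32 * (N * L) → d k ≤ D) →
  (∀ n ∈ Finset.Ioc N (4 * N), ‖b n‖ ≤ A) →
  (∀ t ∈ W, V ≤ ‖DG (Finset.Ioc N (4 * N)) b t‖) →
  V ^ 2 * QW W L ≤ 3 * N * A ^ 2 * D * (14 * mu ((N : ℝ) * L) * L * (W.card : ℝ) +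
    (4 * (‖CS ((N : ℝ) * L) W‖ + 3 * mu ((N : ℝ) * L) * SD ((N : ℝ) * L) W)) ^ (1 / 3 : ℝ) *
      (7 * L * (W.card : ℝ)) ^ (1 / 3 : ℝ) * (QW W L) ^ (1 / 3 : ℝ))

/-- **BAR** (short, real numbers). uses: nothing.
Proof. `R = 0`: first alternative. Otherwise `Q > 0`. If `V² Q ≤ 2 K X L R`: `V² L R² ≤ V² Q`. Else
`V² Q ≤ 2 K Z^(1/3) (L R)^(1/3) Q^(1/3)`, cube: `V⁶ Q³ ≤ 8 K³ Z L R Q`, `V⁶ L² R⁴ ≤ V⁶ Q² ≤ 8 K³ Z L R`. -/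
def BAR_stmt : Prop := ∀ V Q K X L R Z : ℝ, 0 ≤ V → 0 ≤ K → 0 ≤ X → 0 < L → 0 ≤ R → 0 ≤ Z →
  L * R ^ 2 ≤ Q →
  V ^ 2 * Q ≤ K * (X * L * R + Z ^ (1 / 3 : ℝ) * (L * R) ^ (1 / 3 : ℝ) * Q ^ (1 / 3 : ℝ)) →
  V ^ 2 * R ≤ 2 * K * X ∨ V ^ 6 * (L * R ^ 3) ≤ 8 * K ^ 3 * Z

/-- **BA** (medium/long). uses: BHS_stmt, BAR_stmt, BQ2_stmt, BMU_stmt, BR4_stmt, R3_stmt, CUB_stmt;
library: `divisor_bound`. The alternative (A) of the paper.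
Proof. `X = N L`, `T^(1/2) ≤ X ≤ T`. `D = C T^ε'`. `mu X ≤ 64 X`. `K = C N A² D`,
`Z = C (‖CS‖ + X SD)`. `h = ⌈T^(1+δ)/X⌉₊`, `1 ≤ h ≤ 2 T^((1+δ)/3)`: R3 and BR4 give
`h SD ≤ C T^ε' X QW W h ≤ C² T^(2ε') X h S0`, so `X SD ≤ C² T^(2ε') X² S0`. CUB for `CS`. BAR. -/
def BA_stmt : Prop := ∀ ε δ : ℝ, 0 < ε → 0 < δ → δ ≤ 1 / 10 → ∃ C T₀ : ℝ, 0 < C ∧
  ∀ T : ℝ, T₀ ≤ T → ∀ W : Finset ℝ, Sep δ T W → ∀ N L : ℕ, 1 ≤ L →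
  T ^ (2 / 3 * (1 + δ)) ≤ (N : ℝ) → (N : ℝ) * L ≤ T → ∀ (b : ℕ → ℂ) (A V : ℝ), 0 ≤ A → 0 < V →
  (∀ n ∈ Finset.Ioc N (4 * N), ‖b n‖ ≤ A) →
  (∀ t ∈ W, V ≤ ‖DG (Finset.Ioc N (4 * N)) b t‖) →
  V ^ 2 * (W.card : ℝ) ≤ C * A ^ 2 * T ^ ε * ((N : ℝ) ^ 2 * L) ∨
  V ^ 6 * (L * (W.card : ℝ) ^ 3) ≤ C * A ^ 6 * T ^ (ε + 2 * δ) * ((N : ℝ) ^ 3 *
    (T ^ 2 * (W.card : ℝ) ^ (3 / 2 : ℝ) + N * L * T * q3 W + (N : ℝ) ^ 2 * (L : ℝ) ^ 2 * S0 δ T W))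

/-! ## B3: large sieve, local means, counting -/

/-- **BG1** (medium). uses: nothing. Gallagher's lemma.
Proof. `f = ‖F‖²`, `|f'| ≤ 2 ‖F‖ ‖G‖`. `f t ≤ f x + |∫ y in x..t, |f' y||`; average over
`x ∈ [t-ℓ,t+ℓ]`: `f t ≤ (1/2ℓ) ∫ f + (1/2ℓ) ∫ (ℓ - |y-t|) |f' y| ≤ (1/2ℓ) ∫ f + (1/2) ∫ |f'|`
and `‖F‖ ‖G‖ ≤ (‖F‖²/ℓ + ℓ ‖G‖²)/2`. (Simpler: `f t ≤ (1/2ℓ) ∫ f + ∫ |f'|/2`, both halves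
`[t-ℓ,t]`, `[t,t+ℓ]` separately by integration by parts with `(x-t+ℓ) f x`.) -/
def BG1_stmt : Prop := ∀ F G : ℝ → ℂ, (∀ x, HasDerivAt F (G x) x) → Continuous G →
  ∀ t ℓ : ℝ, 0 < ℓ → ‖F t‖ ^ 2 ≤ ∫ x in (t - ℓ)..(t + ℓ), (1 / ℓ * ‖F x‖ ^ 2 + ℓ * ‖G x‖ ^ 2)

/-- **BGD** (medium). uses: nothing. Disjoint intervals.
Proof. The open intervals `(t-1/2,t+1/2)`, `t ∈ W`, are disjoint subsets of `[T-1/2,2T+1/2]`. -/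
def BGD_stmt : Prop := ∀ (T : ℝ) (W : Finset ℝ) (g : ℝ → ℝ), 1 ≤ T → Sep 0 T W → Continuous g →
  (∀ x, 0 ≤ g x) →
  ∑ t ∈ W, ∫ x in (t - 1 / 2)..(t + 1 / 2), g x ≤ ∫ x in (T - 1 / 2)..(2 * T + 1 / 2), g x

/-- **BLG** (medium). uses: nothing; Mathlib: `fourierIntegral_gaussian`.
Proof. Multiply out; `∫ e^(ixu) e^(-(x/T)²) dx = π^(1/2) T e^(-T²u²/4)`. -/
def BLG_stmt : Prop := ∀ (J : Type) (js : Finset J) (α : J → ℂ) (m : J → ℝ) (T : ℝ), 0 < T →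
  Integrable (fun x : ℝ => ‖∑ j ∈ js, α j * Complex.exp (((x * m j : ℝ) : ℂ) * I)‖ ^ 2 *
    Real.exp (-(x / T) ^ 2)) ∧
  ((∫ x : ℝ, ‖∑ j ∈ js, α j * Complex.exp (((x * m j : ℝ) : ℂ) * I)‖ ^ 2 *
    Real.exp (-(x / T) ^ 2) : ℝ) : ℂ) = ((Real.sqrt Real.pi * T : ℝ) : ℂ) *
      ∑ j ∈ js, ∑ j' ∈ js, α j * (starRingEnd ℂ) (α j') *
        ((Real.exp (-(T * (m j - m j')) ^ 2 / 4) : ℝ) : ℂ)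

/-- **BLS** (medium/long). uses: BG1_stmt, BGD_stmt, BLG_stmt. The large sieve, vector form.
Proof. `F_k(t) = ∑ j, α k j e^(it m j)`, `F_k'` has the coefficients `i (m j) (α k j)`. BG1 with
`ℓ = 1/2`, BGD, and `1 ≤ e^9 e^(-(x/T)²)` on `[T-1/2,2T+1/2]` (`|x| ≤ 3T`):
`∑ t ‖F_k t‖² ≤ e^9 ∫ (2 ‖F_k‖² + ‖F_k'‖²/2) e^(-(x/T)²)`. Sum over `k`, BLG for both, triangle
inequality: `≤ e^9 π^(1/2) T (2 + Λ²/2) ∑ j j' ‖∑ k …‖ e^(…)` and `e^9 < 8104`, `π^(1/2) (5/2) < 5`. -/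
def BLS_stmt : Prop := ∀ (J K : Type) (js : Finset J) (ks : Finset K) (α : K → J → ℂ)
  (m : J → ℝ) (Λ T : ℝ) (W : Finset ℝ), 1 ≤ T → 1 ≤ Λ → Sep 0 T W → (∀ j ∈ js, |m j| ≤ Λ) →
  ∑ k ∈ ks, ∑ t ∈ W, ‖∑ j ∈ js, α k j * Complex.exp (((t * m j : ℝ) : ℂ) * I)‖ ^ 2 ≤
    10 ^ 5 * T * Λ ^ 2 * ∑ j ∈ js, ∑ j' ∈ js,
      ‖∑ k ∈ ks, α k j * (starRingEnd ℂ) (α k j')‖ * Real.exp (-(T * (m j - m j')) ^ 2 / 4)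

/-- **BQ0** (medium). uses: nothing (BLG_stmt may help). Second moment of `ρ` and `ρ₁`.
Proof. `1 ≤ e^(a²) e^(-x²)` on `[-a,a]`, multiply out: `∫ e^(ixu) e^(-x²) dx = π^(1/2) e^(-u²/4)`;
`0 ≤ t t'/T² ≤ 4`, and `∑ t' e^(-(t-t')²/4) ≤ ∑ n ∈ ℤ, … ≤ C` since `W` is 1-separated. -/
def BQ0_stmt : Prop := ∀ a : ℝ, 0 < a → ∃ C : ℝ, 0 < C ∧ ∀ (T : ℝ) (W : Finset ℝ), 1 ≤ T →
  Sep 0 T W → ∫ x in (-a)..a, (‖rho W x‖ ^ 2 + ‖rho1 T W x‖ ^ 2) ≤ C * (W.card : ℝ)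

/-- The local mean of `‖ρ‖² + ‖ρ₁‖²` near `y`. -/
noncomputable def MI (T : ℝ) (W : Finset ℝ) (η y : ℝ) : ℝ :=
  T * ∫ v in (-(2 * η))..(2 * η), (‖rho W (y + v)‖ ^ 2 + ‖rho1 T W (y + v)‖ ^ 2)

/-- **BLM** (medium). uses: BG1_stmt.
Proof. `ρ' = i T ρ₁`. BG1 with `ℓ = 1/T`:
`‖ρ x‖² ≤ T ∫ v in (x-1/T)..(x+1/T), (‖ρ‖² + ‖ρ₁‖²)`, and `[x-1/T,x+1/T] ⊆ [y-2η,y+2η]`. -/
def BLM_stmt : Prop := ∀ (T η x y : ℝ) (W : Finset ℝ), 1 ≤ T → 1 / T ≤ η → |x - y| ≤ η →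
  ‖rho W x‖ ^ 2 ≤ MI T W η y

/-- **BLE** (medium). uses: nothing.
Proof. `‖ρ(y+v)‖² + ‖ρ₁(y+v)‖² = ∑ t t', (1 + t t'/T²) e^(i(t-t')(y+v))`; sum over `j`, integrate over
`v`: at most `T · 4η · ∑ t t', 5 ‖∑ j, e^(i(t-t') y j)‖`. -/
def BLE_stmt : Prop := ∀ (J : Type) (js : Finset J) (y : J → ℝ) (T η : ℝ) (W : Finset ℝ), 1 ≤ T →
  0 ≤ η → (∀ t ∈ W, T ≤ t ∧ t ≤ 2 * T) →
  ∑ j ∈ js, MI T W η (y j) ≤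
    20 * T * η * ∑ t ∈ W, ∑ t' ∈ W, ‖∑ j ∈ js, Complex.exp (((y j * (t - t') : ℝ) : ℂ) * I)‖

open Classical in
/-- The number of pairs `n, m ∈ A` with `|z - log (n/m)| ≤ η`. -/
noncomputable def cnt (A : Finset ℕ) (z η : ℝ) : ℝ :=
  ∑ n ∈ A, ∑ m ∈ A, (if |z - (Real.log n - Real.log m)| ≤ η then 1 else 0)

/-- `ν(u) = ∑ j ∈ J, e^(i x(j) u)`. -/
noncomputable def nu (J : Finset ℤ) (x : ℤ → ℝ) (u : ℝ) : ℂ :=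
  ∑ j ∈ J, Complex.exp (((x j * u : ℝ) : ℂ) * I)

/-- `∑ t t', |ν(t-t')|²`. -/
noncomputable def SN (W : Finset ℝ) (J : Finset ℤ) (x : ℤ → ℝ) : ℝ :=
  ∑ t ∈ W, ∑ t' ∈ W, ‖nu J x (t - t')‖ ^ 2

open Classical in
/-- Points in `[-6, 6]`, at most `Dn` of them in an interval of radius `η`. -/
def WS (η Dn : ℝ) (J : Finset ℤ) (x : ℤ → ℝ) : Prop :=
  (∀ j ∈ J, |x j| ≤ 6) ∧ ∀ z : ℝ, ((J.filter fun j => |x j - z| ≤ η).card : ℝ) ≤ Dn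

/-- **BSN** (short). uses: nothing. Multiply out both sides:
`∑ t t' i i', e^(i (x i - x i') (t - t'))`. -/
def BSN_stmt : Prop := ∀ (W : Finset ℝ) (J : Finset ℤ) (x : ℤ → ℝ),
  SN W J x = ∑ i ∈ J, ∑ i' ∈ J, ‖rho W (x i - x i')‖ ^ 2

/-- **BCF** (medium). uses: nothing. Reduced fractions in a short interval.
Proof. Distinct reduced fractions with denominators `≤ Q` differ by at least `1/Q²`. If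
`|z - log (l/m)| ≤ η` for two such fractions `p < q ≤ 4`, then `q ≤ p e^(2η)` and
`q - p ≤ p (e^(2η) - 1) ≤ 4 · 2η e² ≤ 64 η`. So there are at most `1 + 64 η Q²` of them (they lie in
an interval of length `64 η`; the map `(l,m) ↦ l/m` is injective on coprime pairs; order them or use
the disjoint cells `[k/Q²,(k+1)/Q²)`, each containing at most one). -/
def BCF_stmt : Prop := ∀ (Q : ℕ) (z η : ℝ), 1 ≤ Q → 0 < η → η ≤ 1 →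
  ∀ P : Finset (ℕ × ℕ), (∀ p ∈ P, 1 ≤ p.1 ∧ p.1 ≤ Q ∧ 1 ≤ p.2 ∧ p.2 ≤ Q ∧ p.1 ≤ 4 * p.2 ∧
    Nat.Coprime p.1 p.2 ∧ |z - (Real.log p.1 - Real.log p.2)| ≤ η) →
  (P.card : ℝ) ≤ 2 + 100 * η * (Q : ℝ) ^ 2

/-- **BCN** (LONG). uses: BCF_stmt. The counting lemma.
Proof. Let `n, m ∈ (N,4N]`, `g = gcd n m`, `n = g l`, `m = g k`, `l, k` coprime, `N/g < l, k ≤ 4N/g`.
(i) `g ≤ N²/T`: for fixed `g` the number of `(l,k)` is at most `2 + 100 η (4N/g)²` (BCF with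
`Q = ⌊4N/g⌋ ≥ 1`); the sum over `g ≤ N²/T` is at most `2 N²/T + 1600 η N² ∑ g^(-2)`.
(ii) `N²/T < g ≤ N`: `1 ≤ N/g < T/N ≤ 2^M`; let `2^j ≤ N/g < 2^(j+1)`, `j ≤ M`; `l, k ∈ (2^j, 8·2^j]`
`= IL (2^j)`; the number of `g` with `2^j ≤ N/g` is at most `N/2^j`, and `(g,l,k)` determines
`(n,m)`. (iii) `g > N`: `l, k ∈ {1,2,3}`, `(2l,2k) ∈ IL 1 × IL 1` has the same ratio; at most `4N` values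
of `g`. -/
def BCN_stmt : Prop := ∃ C : ℝ, 0 < C ∧ ∀ (N M : ℕ) (T z η : ℝ), 1 ≤ N → (N : ℝ) ≤ T →
  T ≤ (N : ℝ) ^ 2 → T / N ≤ 2 ^ M → 0 < η → η ≤ 1 →
  cnt (Finset.Ioc N (4 * N)) z η ≤ C * ((N : ℝ) ^ 2 / T + η * (N : ℝ) ^ 2) +
    C * ∑ j ∈ Finset.range (M + 1), (N : ℝ) / 2 ^ j * cnt (IL (2 ^ j)) z η

/-! ## B4: the third moment -/

/-- **BC1** (medium). uses: BLM_stmt (or BG1_stmt), BQ0_stmt.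
Proof. `‖ρ(x j)‖² ≤ T ∫ over [x j - 1/T, x j + 1/T] of ‖ρ‖² + ‖ρ₁‖²` (BG1 with `ℓ = 1/T`); every point
lies in at most `Dn` of these intervals (WS with `η ≥ 1/T`), all are in `[-7,7]`; BQ0 with `a = 7`. -/
def BC1_stmt : Prop := ∃ C : ℝ, 0 < C ∧ ∀ (T η Dn : ℝ) (W : Finset ℝ) (J : Finset ℤ)
  (x : ℤ → ℝ), 1 ≤ T → 1 / T ≤ η → Sep 0 T W → WS η Dn J x →
  ∑ j ∈ J, ‖rho W (x j)‖ ^ 2 ≤ C * Dn * T * (W.card : ℝ)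

/-- **BC2** (medium/long). uses: BLS_stmt.
Proof. `θ j ρ(x j) = ‖ρ(x j)‖`, `‖θ j‖ ≤ 1`. `P lam ≤ ∑ j θ j ρ(x j) = ∑ t, ν_θ(t)`,
`ν_θ(t) = ∑ j θ j e^(it x j)`; `P lam V₀ ≤ ∑ t ‖D₀(t) ν_θ(t)‖`, Cauchy–Schwarz over `t`;
`D₀(t) ν_θ(t) = ∑ (j,n), θ j a n e^(it (x j - log n))`, BLS with `K` a point,
`|x j - log n| ≤ 6 + log (2 T) ≤ log T + 8`, and
`e^(-(T u)²/4) ≤ 1_{|u| ≤ η} + e^(-(T η)²/4)`, `u = x i - x i' - (log n - log m)`. -/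
def BC2_stmt : Prop := ∀ (T η : ℝ) (W : Finset ℝ) (N : ℕ) (a : ℕ → ℂ) (A V lam : ℝ)
  (J : Finset ℤ) (x : ℤ → ℝ), 1 ≤ T → Sep 0 T W → 1 ≤ N → (N : ℝ) ≤ T → 0 ≤ η → 0 ≤ A → 0 ≤ V →
  (∀ n ∈ Finset.Ioc N (2 * N), ‖a n‖ ≤ A) → (∀ t ∈ W, V ≤ ‖DP N a t‖) → (∀ j ∈ J, |x j| ≤ 6) →
  0 ≤ lam → (∀ j ∈ J, lam ≤ ‖rho W (x j)‖) →
  ((J.card : ℝ) * lam) ^ 2 * V ^ 2 ≤ 10 ^ 5 * (W.card : ℝ) * T * (Real.log T + 8) ^ 2 * A ^ 2 *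
    (∑ i ∈ J, ∑ i' ∈ J, cnt (Finset.Ioc N (2 * N)) (x i - x i') η +
      (J.card : ℝ) ^ 2 * (N : ℝ) ^ 2 * Real.exp (-(T * η) ^ 2 / 4))

/-- **BC3** (medium/long). uses: BLM_stmt, BLE_stmt.
Proof. Fix `i ∈ J`, `n, m ∈ A`, `y = x i - log n + log m`. The `i' ∈ J` with
`|x i - x i' - (log n - log m)| ≤ η`, i.e. `|x i' - y| ≤ η`, are at most `Dn`, and for each of them
`lam² ≤ ‖ρ(x i')‖² ≤ MI T W η y` (BLM). So `lam² ∑ i i' cnt ≤ Dn ∑ (i,n,m) MI T W η y(i,n,m)` and BLE: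
`∑ (i,n,m), e^(i y (t-t')) = ν(t-t') · PL A (t-t') · conj (PL A (t-t'))` (`n^(-iu) = e^(-iu log n)`). -/
def BC3_stmt : Prop := ∀ (T η Dn lam : ℝ) (W : Finset ℝ) (J : Finset ℤ) (x : ℤ → ℝ)
  (A : Finset ℕ), 1 ≤ T → 1 / T ≤ η → Sep 0 T W → WS η Dn J x → 0 ∉ A → 0 ≤ lam →
  (∀ j ∈ J, lam ≤ ‖rho W (x j)‖) →
  lam ^ 2 * ∑ i ∈ J, ∑ i' ∈ J, cnt A (x i - x i') η ≤
    20 * T * η * Dn * ∑ t ∈ W, ∑ t' ∈ W, ‖nu J x (t - t')‖ * ‖PL A (t - t')‖ ^ 2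

/-- **BC5** (medium/long). uses: BLM_stmt, BLE_stmt.
Proof. Fix `i' ∈ J`, `n, m ∈ A`, `y = log n - log m`. The `i ∈ J` with `|x i - x i' - y| ≤ η` are at most
`Dn`, and `‖ρ(x i - x i')‖² ≤ MI T W η y`. So the left side is at most
`Dn J.card ∑ (n,m) MI T W η (log n - log m)`; BLE. -/
def BC5_stmt : Prop := ∀ (T η Dn : ℝ) (W : Finset ℝ) (J : Finset ℤ) (x : ℤ → ℝ) (A : Finset ℕ),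
  1 ≤ T → 1 / T ≤ η → Sep 0 T W → WS η Dn J x → 0 ∉ A →
  ∑ i ∈ J, ∑ i' ∈ J, ‖rho W (x i - x i')‖ ^ 2 * cnt A (x i - x i') η ≤
    20 * T * η * Dn * (J.card : ℝ) * ∑ t ∈ W, ∑ t' ∈ W, ‖PL A (t - t')‖ ^ 2

/-- **BC6** (short). uses: BC3_stmt, BC5_stmt.
Proof. `‖ν‖ ≤ J.card`; `(∑ ‖ρ‖ cnt)² ≤ (∑ cnt) (∑ ‖ρ‖² cnt)`, so
`(lam ∑ ‖ρ‖ cnt)² ≤ (20 T η Dn J.card QW W h)²`. -/
def BC6_stmt : Prop := ∀ (T η Dn lam : ℝ) (W : Finset ℝ) (J : Finset ℤ) (x : ℤ → ℝ) (h : ℕ),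
  1 ≤ T → 1 / T ≤ η → Sep 0 T W → WS η Dn J x → 0 ≤ lam → (∀ j ∈ J, lam ≤ ‖rho W (x j)‖) →
  lam * ∑ i ∈ J, ∑ i' ∈ J, ‖rho W (x i - x i')‖ * cnt (IL h) (x i - x i') η ≤
    20 * T * η * Dn * (J.card : ℝ) * QW W h

/-- **BC7** (medium/long). uses: BLS_stmt.
Proof. `V² SN ≤ ∑ t' ∑ t ‖D(t) ν(t-t')‖²`, `D = DG (Ioc N (4N)) b`,
`D(t) ν(t-t') = ∑ (j,n), b n e^(-i x j t') e^(it (x j - log n))`. BLS with `K = W` (`k = t'`):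
`‖∑ t' α conj α‖ = ‖b n‖ ‖b m‖ ‖ρ(x i - x i')‖` (`‖ρ(-u)‖ = ‖ρ(u)‖`),
`|x j - log n| ≤ 6 + log (4T) ≤ log T + 8`; split the Gaussian at `η` as in BC2 (`‖ρ‖ ≤ R`). -/
def BC7_stmt : Prop := ∀ (T η : ℝ) (W : Finset ℝ) (N : ℕ) (b : ℕ → ℂ) (B V : ℝ)
  (J : Finset ℤ) (x : ℤ → ℝ), 1 ≤ T → Sep 0 T W → 1 ≤ N → (N : ℝ) ≤ T → 0 ≤ η → 0 ≤ B → 0 ≤ V →
  (∀ n ∈ Finset.Ioc N (4 * N), ‖b n‖ ≤ B) →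
  (∀ t ∈ W, V ≤ ‖DG (Finset.Ioc N (4 * N)) b t‖) → (∀ j ∈ J, |x j| ≤ 6) →
  V ^ 2 * SN W J x ≤ 10 ^ 5 * T * (Real.log T + 8) ^ 2 * B ^ 2 *
    (∑ i ∈ J, ∑ i' ∈ J, ‖rho W (x i - x i')‖ * cnt (Finset.Ioc N (4 * N)) (x i - x i') η +
      16 * (J.card : ℝ) ^ 2 * (N : ℝ) ^ 2 * (W.card : ℝ) * Real.exp (-(T * η) ^ 2 / 4))

/-- **BQL** (medium, real numbers). uses: nothing.
Proof. `P = 0` is trivial. From `h3` and `h2` (times `lam²`):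
`P² lam⁴ V ≤ E² R^(3/2) T N Y^(1/2)`. If the first term in `h4` is the larger one:
`Y^(1/2) ≤ 2 E N² P/V²`, so `P lam⁴ ≤ 2 E³ R^(3/2) T N³ V^(-3)` and with `h1`
`(P lam³)² = (P lam⁴)(P lam²) ≤ 2 E⁴ T² R^(5/2) (N/V)³`. Otherwise
`Y^(1/2) ≤ (2 E T N P S/lam)^(1/2)/V` and
`P^(3/2) lam^(9/2) ≤ 2^(1/2) E^(5/2) R^(3/2) T^(3/2) N^(3/2) S^(1/2) V^(-2)`; raise to the power
`2/3`. -/
def BQL_stmt : Prop := ∀ P lam R T N V E S J Y : ℝ, 0 ≤ P → 0 < lam → 0 < R → 0 < T → 0 < N →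
  0 < V → 1 ≤ E → 0 ≤ S → 0 ≤ J → 0 ≤ Y →
  P * lam ^ 2 ≤ E * T * R →
  (P * lam) ^ 2 * V ≤ E * R * T * J →
  lam ^ 2 * J ≤ E * (R ^ (1 / 2 : ℝ) * N * Y ^ (1 / 2 : ℝ)) →
  V ^ 2 * Y ≤ E * (N ^ 2 * P * Y ^ (1 / 2 : ℝ) + T * N * P * S / lam) →
  P * lam ^ 3 ≤ 2 * E ^ 2 * T * (R ^ (5 / 4 : ℝ) * (N / V) ^ (3 / 2 : ℝ) +
    R * S ^ (1 / 3 : ℝ) * N * V ^ (-(4 / 3 : ℝ)))

/-- The bracket in the bound for the third moment (without `R^(3/2)`), `V = V₀²`. -/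
noncomputable def KQ (R N V S : ℝ) : ℝ :=
  R ^ (5 / 4 : ℝ) * (N / V) ^ (3 / 2 : ℝ) + R * S ^ (1 / 3 : ℝ) * N * V ^ (-(4 / 3 : ℝ))

/-- **BC4** (medium/long). uses: BC6_stmt, BC7_stmt, BCN_stmt, BSN_stmt, BR4_stmt; library:
`divisor_bound`. The bound (c4), `η = T^(δ-1)`, `Dn = 5 T^δ`, `P = J.card`, `N` natural,
`T^(2/3 (1+δ)) ≤ N ≤ T`.
Proof. BC7, then BCN with `z = x i - x i'` and `2^M ≥ T/N > 2^(M-1)` (or `M = 0`), `M ≤ 2 log T + 1`: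
(a) `T · C (N²/T + η N²) ∑ ‖ρ(x i - x i')‖ ≤ 2 C T^δ N² P SN^(1/2)` (Cauchy–Schwarz, BSN; `T η = T^δ`);
(b) `T · C (N/2^j) ∑ ‖ρ‖ cnt (IL (2^j)) ≤ C T (N/2^j) 20 T^δ 5 T^δ P QW W (2^j)/lam` (BC6), and
`QW W (2^j) ≤ C T^ε' 2^j S0` (BR4, `2^j ≤ 2^M ≤ 2 T/N ≤ 2 T^((1+δ)/3)`);
(c) the Gaussian term: `16 P² N² R e^(-T^(2δ)/4) T ≤ T N P S0/lam` for `T ≥ T₀`, since
`P ≤ 5 T^δ · 13 T`…: the statement assumes `P ≤ 20 T`, and `lam ≤ R`, `S0 ≥ R²`, `R ≤ 3 T`. -/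
def BC4_stmt : Prop := ∀ ε δ : ℝ, 0 < ε → 0 < δ → δ ≤ 1 / 10 → ∃ C T₀ : ℝ, 0 < C ∧
  ∀ T : ℝ, T₀ ≤ T → ∀ W : Finset ℝ, Sep δ T W → ∀ (N : ℕ) (b : ℕ → ℂ) (B V lam : ℝ)
  (J : Finset ℤ) (x : ℤ → ℝ), T ^ (2 / 3 * (1 + δ)) ≤ (N : ℝ) → (N : ℝ) ≤ T → 1 ≤ B → 0 ≤ V →
  (∀ n ∈ Finset.Ioc N (4 * N), ‖b n‖ ≤ B) →
  (∀ t ∈ W, V ≤ ‖DG (Finset.Ioc N (4 * N)) b t‖) → WS (T ^ (δ - 1)) (5 * T ^ δ) J x →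
  (J.card : ℝ) ≤ 20 * T → 1 ≤ lam → (∀ j ∈ J, lam ≤ ‖rho W (x j)‖) →
  V ^ 2 * SN W J x ≤ C * B ^ 2 * T ^ (ε + 2 * δ) * ((N : ℝ) ^ 2 * (J.card : ℝ) *
    (SN W J x) ^ (1 / 2 : ℝ) + T * N * (J.card : ℝ) * S0 δ T W / lam)

/-- **BCJ** (medium). uses: BC3_stmt, BSQ_stmt, BPS_stmt, BR5_stmt; library: `divisor_bound`. The bound
(c3), `N = N₀²`, under `S0 ≤ R N`.
Proof. BC3 with `A = Ioc N₀ (2N₀)`, `η = T^(δ-1)`, `Dn = 5 T^δ`, Cauchy–Schwarz over the pairs: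
`∑ ‖ν‖ ‖PL‖² ≤ SN^(1/2) (∑ ‖PL‖⁴)^(1/2)`; BSQ with `K = Ioc (N₀²) (4N₀²) ⊆ IL (N₀²)` and BPS (`b = 1`):
`∑ ‖PL‖⁴ ≤ D² QW W (N₀²)`; BR5: `QW W N ≤ C T^ε' (R N² + N S0) ≤ 2 C T^ε' R N²`. -/
def BCJ_stmt : Prop := ∀ ε δ : ℝ, 0 < ε → 0 < δ → δ ≤ 1 / 10 → ∃ C T₀ : ℝ, 0 < C ∧
  ∀ T : ℝ, T₀ ≤ T → ∀ W : Finset ℝ, Sep δ T W → ∀ (N₀ : ℕ) (lam : ℝ) (J : Finset ℤ)
  (x : ℤ → ℝ), T ^ (2 / 3 * (1 + δ)) ≤ (N₀ : ℝ) ^ 2 → (N₀ : ℝ) ^ 2 ≤ T →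
  S0 δ T W ≤ (W.card : ℝ) * (N₀ : ℝ) ^ 2 → WS (T ^ (δ - 1)) (5 * T ^ δ) J x → 1 ≤ lam →
  (∀ j ∈ J, lam ≤ ‖rho W (x j)‖) →
  lam ^ 2 * ∑ i ∈ J, ∑ i' ∈ J, cnt (Finset.Ioc N₀ (2 * N₀)) (x i - x i') (T ^ (δ - 1)) ≤
    C * T ^ (ε + 2 * δ) * ((W.card : ℝ) ^ (1 / 2 : ℝ) * (N₀ : ℝ) ^ 2 * (SN W J x) ^ (1 / 2 : ℝ))

/-- **BQS** (medium). uses: BC1_stmt, BC2_stmt, BCJ_stmt, BC4_stmt, BQL_stmt; library: `pow_poly`,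
`divisor_bound`, `CO_log`. One level.
Proof. If `J` is empty, trivial; otherwise `R > 0`. `D = D₀²` has the form `DG (Ioc N (4N)) b`,
`N = N₀²`, `‖b n‖ ≤ A² (d n)² ≤ C A² T^ε'` (`pow_poly`, `k = 2`), `‖D‖ ≥ V₀²` on `W`. Apply BC1, BC2
(the Gaussian term is `≤ 1 ≤` the diagonal terms of the double sum for `T ≥ T₀`), BCJ, BC4 and BQL
with `E = C A⁴ T^(ε/2 + 2δ)`, `J =` the double sum of `cnt`, `Y = SN`, `S = S0`. (`DP N₀ a t ^ 2` is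
`DG …`: `(-(t I)) ` exponents, `pow_poly` with `s = t I`.) -/
def BQS_stmt : Prop := ∀ ε δ : ℝ, 0 < ε → 0 < δ → δ ≤ 1 / 10 → ∃ C T₀ : ℝ, 0 < C ∧
  ∀ T : ℝ, T₀ ≤ T → ∀ W : Finset ℝ, Sep δ T W → ∀ (N₀ : ℕ) (a : ℕ → ℂ) (A V₀ lam : ℝ)
  (J : Finset ℤ) (x : ℤ → ℝ), T ^ (2 / 3 * (1 + δ)) ≤ (N₀ : ℝ) ^ 2 → (N₀ : ℝ) ^ 2 ≤ T →
  1 ≤ A → 0 < V₀ → (∀ n ∈ Finset.Ioc N₀ (2 * N₀), ‖a n‖ ≤ A) → (∀ t ∈ W, V₀ ≤ ‖DP N₀ a t‖) →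
  S0 δ T W ≤ (W.card : ℝ) * (N₀ : ℝ) ^ 2 → WS (T ^ (δ - 1)) (5 * T ^ δ) J x →
  (J.card : ℝ) ≤ 20 * T → 1 ≤ lam → (∀ j ∈ J, lam ≤ ‖rho W (x j)‖) →
  (J.card : ℝ) * lam ^ 3 ≤ C * A ^ 8 * T ^ (ε + 4 * δ) *
    (T * KQ (W.card : ℝ) ((N₀ : ℝ) ^ 2) (V₀ ^ 2) (S0 δ T W))

/-- **BQC** (medium). uses: nothing. Cells.
Proof. `x j` = a point of `[j/T,(j+1)/T]` where the continuous function `‖ρ‖` is maximal; `[-5,5]` is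
covered by these cells. If `|x j - z| ≤ η` then `j/T ∈ [z-η-1/T, z+η]`: at most `2Tη + 3` integers. -/
def BQC_stmt : Prop := ∀ (T : ℝ) (W : Finset ℝ), 2 ≤ T → ∃ x : ℤ → ℝ,
  (∀ j : ℤ, (j : ℝ) / T ≤ x j ∧ x j ≤ (j + 1) / T) ∧
  q3 W ≤ 1 / T * ∑ j ∈ Finset.Icc (-⌈5 * T⌉) ⌈5 * T⌉, ‖rho W (x j)‖ ^ 3 ∧
  ∀ η : ℝ, 1 / T ≤ η → WS η (2 * T * η + 3) (Finset.Icc (-⌈5 * T⌉) ⌈5 * T⌉) x

open Classical in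
/-- **BQD** (medium). uses: nothing. Dyadic decomposition.
Proof. The `j` with `f j < 1` contribute at most `J.card`. The others: `i = ⌊logb 2 (f j)⌋`,
`2^i ≤ f j < 2^(i+1)`, `0 ≤ i ≤ logb 2 F`; `f j ^ 3 ≤ 8 · (2^i)^3`. -/
def BQD_stmt : Prop := ∀ (J : Finset ℤ) (f : ℤ → ℝ) (F Y : ℝ), (∀ j ∈ J, 0 ≤ f j ∧ f j ≤ F) →
  1 ≤ F → 0 ≤ Y →
  (∀ lam : ℝ, 1 ≤ lam → ((J.filter fun j => lam ≤ f j ∧ f j < 2 * lam).card : ℝ) * lam ^ 3 ≤ Y) →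
  ∑ j ∈ J, f j ^ 3 ≤ (J.card : ℝ) + 8 * (Real.logb 2 F + 1) * Y

/-- **BQF** (medium). uses: BQS_stmt, BQC_stmt, BQD_stmt. The third moment.
Proof. `W` empty: `q3 = 0`. Otherwise BQC, `J₀ = Icc (-⌈5T⌉) ⌈5T⌉`, `J₀.card ≤ 13 T`, WS for `J₀` (hence
for every subset) with `η = T^(δ-1)`, `2Tη + 3 ≤ 5 T^δ`. BQD with `f j = ‖ρ(x j)‖ ≤ R = F`, the level
sets by BQS; divide by `T`; `J₀.card/T ≤ 13 ≤ 13 R^(3/2)`, `logb 2 R ≤ C T^(ε/2)`. -/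
def BQF_stmt : Prop := ∀ ε δ : ℝ, 0 < ε → 0 < δ → δ ≤ 1 / 10 → ∃ C T₀ : ℝ, 0 < C ∧
  ∀ T : ℝ, T₀ ≤ T → ∀ W : Finset ℝ, Sep δ T W → ∀ (N₀ : ℕ) (a : ℕ → ℂ) (A V₀ : ℝ),
  T ^ (2 / 3 * (1 + δ)) ≤ (N₀ : ℝ) ^ 2 → (N₀ : ℝ) ^ 2 ≤ T → 1 ≤ A → 0 < V₀ →
  (∀ n ∈ Finset.Ioc N₀ (2 * N₀), ‖a n‖ ≤ A) → (∀ t ∈ W, V₀ ≤ ‖DP N₀ a t‖) →
  S0 δ T W ≤ (W.card : ℝ) * (N₀ : ℝ) ^ 2 →
  q3 W ≤ C * A ^ 8 * T ^ (ε + 4 * δ) * ((W.card : ℝ) ^ (3 / 2 : ℝ) +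
    KQ (W.card : ℝ) ((N₀ : ℝ) ^ 2) (V₀ ^ 2) (S0 δ T W))

/-! ## B5: exponents -/

/-- The exponent of `S0`. -/
noncomputable def sg (w : ℝ) : ℝ := max (2 * w) (3 / 2 * w + 1 / 3)

/-- The exponent inequalities. -/
def EXI (s b w l : ℝ) : Prop := 0 ≤ l ∧ b + l ≤ 9 / 10 ∧
  l + 2 * b * (1 - s) ≤ w ∧
  3 * b + 2 + 3 / 2 * w ≤ 6 * (b * s) + 3 * w + l ∧
  5 * b + l + sg w ≤ 6 * (b * s) + 3 * w ∧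
  4 * b + 1 + 3 / 2 * w ≤ 6 * (b * s) + 3 * w ∧
  4 * b + 1 + 5 / 4 * w + 3 / 2 * (b - b * s) ≤ 6 * (b * s) + 3 * w ∧
  4 * b + 1 + w + sg w / 3 + b - 4 / 3 * (b * s) ≤ 6 * (b * s) + 3 * w ∧
  sg w + 1 / 20 ≤ w + b

/-- **BE1** (medium/long, real numbers). uses: nothing. The exponents (section 6 of the paper).
Proof. `l = max 0 (2 + 3b - 3w/2 - 6bs)`. Everything is linear in `b` for fixed `s`, `w = 39/17 (1-s)`,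
on the interval from `13/17` to the minimum of `1` and `b₁ = (1-w)/(2s-1)`; check the end points.
If `w ≥ 2/3` then `sg w = 2w`, otherwise `sg w = 3w/2 + 1/3`. Identities:
at `b = 13/17`: `5w/2 - 2 + b(12s-8) = (117s-81)/34`, `7w/4 - 1 - b(11-15s)/2 = (117s-81)/68`,
`4w/3 - 1 - b(5-22s/3) = (130s-90)/51`; at `b₁`:
`(2s-1)(7w/4 - 1 - b₁(11-15s)/2) = (156/17)(s-9/13)(s-31/48)`. -/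
def BE1_stmt : Prop := ∀ s b w : ℝ, 9 / 13 ≤ s → s ≤ 3 / 4 → w = 39 / 17 * (1 - s) →
  13 / 17 ≤ b → b ≤ 1 → b * (2 * s - 1) ≤ 1 - w → ∃ l : ℝ, EXI s b w l

/-- **BE2** (medium/long, real numbers). uses: nothing. From the exponents to a contradiction.
Proof. `S ≤ 2 T^(sg w + 2ε + ε/300)`. First claim: `V² R ≥ T^(2bs - ε/50 + w + ε)/2`, but
`T^(ε/100) N² L ≤ 2 T^(ε/100 + 2b + l) ≤ 2 T^(ε/100 + w + 2bs)`. Second claim: the left side is at least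
`T^(6bs - 6ε/100 + l + 3w + 3ε)/8`; each of the five terms on the right is at most
`32 T^(6bs + l + 3w + 2ε + 10ε/100)`: (E2) for `N³T²R^(3/2)`; (E4), (E5), (E6) for `N⁴ L T q` with the
three terms of `q`; (E3) for `N⁵ L² S`. `T ≥ T₀(ε)`. -/
def BE2_stmt : Prop := ∀ ε : ℝ, 0 < ε → ε ≤ 1 / 100 → ∃ T₀ : ℝ, ∀ T : ℝ, T₀ ≤ T →
  ∀ s b w l R N L V S q : ℝ, 1 / 2 ≤ s → s ≤ 1 → 0 ≤ b → b ≤ 1 → 0 ≤ w → w ≤ 1 → EXI s b w l →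
  N = T ^ b → T ^ l ≤ L → L ≤ 2 * T ^ l → T ^ (b * s - ε / 100) ≤ V → T ^ (w + ε) / 2 ≤ R →
  R ≤ T ^ (w + ε) → S = R ^ 2 + R ^ (3 / 2 : ℝ) * T ^ ((1 + ε / 100) / 3) →
  q ≤ T ^ (ε / 100) * (R ^ (3 / 2 : ℝ) + KQ R N V S) →
  ¬ (V ^ 2 * R ≤ T ^ (ε / 100) * (N ^ 2 * L)) ∧
  ¬ (V ^ 6 * (L * R ^ 3) ≤ T ^ (ε / 100) * (N ^ 3 *
    (T ^ 2 * R ^ (3 / 2 : ℝ) + N * L * T * q + N ^ 2 * L ^ 2 * S)))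

/-- **BS0** (short/medium, real numbers). uses: nothing. `S0 ≤ R N`.
Proof. `R² ≤ R T^(w+ε)`, `w + ε ≤ sg w - w + ε ≤ b - 1/20 + ε`;
`R^(1/2) T^((1+ε/100)/3) ≤ T^((w+ε)/2 + 1/3 + ε/300) ≤ T^(b - 1/20 + ε)`; and `2 T^(-1/20 + ε) ≤ 1`. -/
def BS0_stmt : Prop := ∀ ε : ℝ, 0 < ε → ε ≤ 1 / 100 → ∃ T₀ : ℝ, ∀ T : ℝ, T₀ ≤ T →
  ∀ b w R : ℝ, 0 ≤ w → sg w + 1 / 20 ≤ w + b → 0 ≤ R → R ≤ T ^ (w + ε) →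
  R ^ 2 + R ^ (3 / 2 : ℝ) * T ^ ((1 + ε / 100) / 3) ≤ R * T ^ b

/-- **LVN** (LONG). uses: BA_stmt, BQF_stmt, BE1_stmt, BE2_stmt, BS0_stmt; library: `pow_poly`,
`divisor_bound`, `CO_log`. The interface statement `LVN_stmt` of `Defs`.
Proof. We may assume `ε ≤ 1/100`. `δ₀ = ε/10000`. Given `δ ≤ δ₀`; `κ = ε/10000`. Let
`w = 39/17 (1-σ)`, `N = N₀²` (`N₀` = the `N` of the statement), `V₀ = N₀^σ/(4 C₁ log T)`,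
`A = max 1 (C₁ T^κ)`. Suppose `W.card > T^(w+ε)`; choose `W' ⊆ W` with
`W'.card = ⌊T^(w+ε)⌋₊ =: R` (`Finset.exists_subset_card_eq`), `T^(w+ε)/2 ≤ R ≤ T^(w+ε)`; `Sep δ T W'`.
`b = logb T N`, `13/17 ≤ b ≤ 1`, `N = T^b`, and `N^(2σ-1) ≤ T^(1-w)` gives `b (2σ-1) ≤ 1 - w`. BE1: `l`.
`L = ⌈T^l⌉₊`, `T^l ≤ L ≤ 2 T^l`, `N L ≤ 2 T^(9/10) ≤ T`. `S0 δ T W' ≤ S := R² + R^(3/2) T^((1+ε/100)/3)`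
(`δ ≤ ε/100`) `≤ R N` by BS0. BQF with `ε' = ε/10000`: `q3 W' ≤ T^(ε/100) (R^(3/2) + KQ R N V S)`,
`V = V₀² ≥ T^(bσ - ε/100)`, for `T ≥ T₀` (`KQ` is monotone in `S`; `C A^8 T^(ε'+4δ) ≤ T^(ε/100)`).
`D₀² = DG (Ioc N (4N)) b'`, `‖b'‖ ≤ A² (d n)² ≤ T^(ε/1000)`; BA with `ε'`: one of the two inequalities
negated in BE2 holds, a contradiction (`C A'^6 T^(ε'+2δ) ≤ T^(ε/100)`). So
`W.card ≤ T^(w+ε)` for `T ≥ T₀`, and `C = 1`. -/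
def LVN_doc : Prop := LVN_stmt

end Pool.Agent.ZD
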