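import Pool.Agent.helper86.ZD.SpecC

set_option autoImplicit false

open Complex MeasureTheory

namespace Pool.Agent.ZD

/-- CMQ -/
theorem CMQ : CMQ_stmt := by
  intro T M σ δ hT hδ hσ hσ' h1 h2 h3
  have hT0 : 0 < T := by linarith
  have hM0 : 0 < M := lt_of_lt_of_le (Real.rpow_pos_of_pos hT0 _) h1
  have e1 : M * M ^ (-(2 * σ)) = M ^ (1 - 2 * σ) := by
    rw [sub_eq_add_neg, Real.rpow_add hM0, Real.rpow_one]
  rw [mul_assoc, e1]
  rcases le_total T M with h | h
  · have e2 : M * M ^ (1 - 2 * σ) = M ^ (2 - 2 * σ) := by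
      rw [show (2 : ℝ) - 2 * σ = 1 + (1 - 2 * σ) by ring, Real.rpow_add hM0, Real.rpow_one]
    calc (T + M) * M ^ (1 - 2 * σ) ≤ (2 * M) * M ^ (1 - 2 * σ) :=
          mul_le_mul_of_nonneg_right (by linarith) (Real.rpow_nonneg hM0.le _)
      _ = 2 * M ^ (2 - 2 * σ) := by rw [mul_assoc, e2]
      _ ≤ 2 * (T ^ (1 + 2 * δ)) ^ (2 - 2 * σ) :=
          mul_le_mul_of_nonneg_left (Real.rpow_le_rpow hM0.le h2 (by linarith)) (by norm_num)
      _ = 2 * T ^ ((1 + 2 * δ) * (2 - 2 * σ)) := by rw [← Real.rpow_mul hT0.le]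
      _ ≤ _ := by
          refine mul_le_mul_of_nonneg_left (Real.rpow_le_rpow_of_exponent_le hT ?_) (by norm_num)
          nlinarith
  · have hs : σ ≤ 9 / 13 ∨ T = M := by
      rcases h3 with h3 | h3
      · exact Or.inl h3
      · exact Or.inr (le_antisymm h3 h)
    rcases hs with hs | hs
    · have e3 : M ^ (1 - 2 * σ) ≤ (T ^ (13 / 17 : ℝ)) ^ (1 - 2 * σ) :=
        Real.rpow_le_rpow_of_nonpos (Real.rpow_pos_of_pos hT0 _) h1 (by linarith)
      calc (T + M) * M ^ (1 - 2 * σ) ≤ (2 * T) * (T ^ (13 / 17 : ℝ)) ^ (1 - 2 * σ) :=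
            mul_le_mul (by linarith) e3 (Real.rpow_nonneg hM0.le _) (by linarith)
        _ = 2 * T ^ (1 + 13 / 17 * (1 - 2 * σ)) := by
            rw [← Real.rpow_mul hT0.le, Real.rpow_add hT0, Real.rpow_one, mul_assoc]
        _ ≤ _ := by
            refine mul_le_mul_of_nonneg_left (Real.rpow_le_rpow_of_exponent_le hT ?_) (by norm_num)
            linarith
    · subst hs
      have e2 : T * T ^ (1 - 2 * σ) = T ^ (2 - 2 * σ) := by
        rw [show (2 : ℝ) - 2 * σ = 1 + (1 - 2 * σ) by ring, Real.rpow_add hT0, Real.rpow_one]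
      calc (T + T) * T ^ (1 - 2 * σ) = 2 * (T * T ^ (1 - 2 * σ)) := by ring
        _ = 2 * T ^ (2 - 2 * σ) := by rw [e2]
        _ ≤ _ := by
            refine mul_le_mul_of_nonneg_left (Real.rpow_le_rpow_of_exponent_le hT ?_) (by norm_num)
            linarith

end Pool.Agent.ZD
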