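import Pool.Agent.helper15.DH.Assembly
import Pool.Agent.helper1.ZD.BC5
import Pool.Agent.helper1.ZD.BGD
import Pool.Agent.helper1.ZD.BLG
import Pool.Agent.helper1.ZD.QDI
import Pool.Agent.helper11.ZD.NPM
import Pool.Agent.helper13.ZD.BQ2
import Pool.Agent.helper16.ZD.BQS
import Pool.Agent.helper18.ZD.BMU
import Pool.Agent.helper18.ZD.BQD
import Pool.Agent.helper18.ZD.ZDT
import Pool.Agent.helper2.ZD.BC1
import Pool.Agent.helper20.ZD.BLE
import Pool.Agent.helper20.ZD.K2B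
import Pool.Agent.helper21.ZD.BT3
import Pool.Agent.helper23.ZD.AL2
import Pool.Agent.helper24.ZD.BM1
import Pool.Agent.helper24.ZD.SBO
import Pool.Agent.helper25.ZD.BCN
import Pool.Agent.helper25.ZD.BQ1
import Pool.Agent.helper25.ZD.R3M
import Pool.Agent.helper27.ZD.BE2
import Pool.Agent.helper28.ZD.BLK
import Pool.Agent.helper3.ZD.BPS
import Pool.Agent.helper3.ZD.CSIG
import Pool.Agent.helper3.ZD.RD
import Pool.Agent.helper30.ZD.BQF
import Pool.Agent.helper30.ZD.IBZ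
import Pool.Agent.helper31.ZD.BSQ
import Pool.Agent.helper31.ZD.CMB
import Pool.Agent.helper31.ZD.QZ0
import Pool.Agent.helper33.ZD.STR
import Pool.Agent.helper34.ZD.CHX
import Pool.Agent.helper38.ZD.DVS
import Pool.Agent.helper39.ZD.BC3
import Pool.Agent.helper40.ZD.AL1
import Pool.Agent.helper40.ZD.BCJ
import Pool.Agent.helper43.ZD.BPH
import Pool.Agent.helper43.ZD.BR1
import Pool.Agent.helper45.ZD.BC6
import Pool.Agent.helper45.ZD.BH1
import Pool.Agent.helper45.ZD.MONW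
import Pool.Agent.helper45.ZD.MVK
import Pool.Agent.helper46.ZD.RFS
import Pool.Agent.helper50.ZD.BH2
import Pool.Agent.helper50.ZD.BSP
import Pool.Agent.helper51.ZD.BS0
import Pool.Agent.helper51.ZD.CSEP
import Pool.Agent.helper51.ZD.POI
import Pool.Agent.helper52.ZD.GEO
import Pool.Agent.helper55.ZD.BAR
import Pool.Agent.helper57.ZD.IBU
import Pool.Agent.helper58.ZD.PRS
import Pool.Agent.helper59.ZD.BHS
import Pool.Agent.helper60.ZD.PR2
import Pool.Agent.helper61.ZD.LVN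
import Pool.Agent.helper62.ZD.CALL
import Pool.Agent.helper62.ZD.CONE
import Pool.Agent.helper63.ZD.BQ0
import Pool.Agent.helper63.ZD.BSB
import Pool.Agent.helper63.ZD.CTAY
import Pool.Agent.helper65.ZD.KAPF
import Pool.Agent.helper66.ZD.BG1
import Pool.Agent.helper66.ZD.CRD
import Pool.Agent.helper67.ZD.BA
import Pool.Agent.helper70.ZD.BLM
import Pool.Agent.helper70.ZD.CUBM
import Pool.Agent.helper72.ZD.BT2
import Pool.Agent.helper72.ZD.CMR
import Pool.Agent.helper72.ZD.QWF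
import Pool.Agent.helper73.ZD.BLS
import Pool.Agent.helper73.ZD.CCOR
import Pool.Agent.helper75.ZD.BR4
import Pool.Agent.helper76.ZD.BS2
import Pool.Agent.helper77.ZD.CDI
import Pool.Agent.helper78.ZD.CMA
import Pool.Agent.helper8.ZD.BC2
import Pool.Agent.helper80.ZD.BC7
import Pool.Agent.helper81.ZD.BE1
import Pool.Agent.helper86.ZD.BC4
import Pool.Agent.helper86.ZD.CMC
import Pool.Agent.helper87.ZD.BES
import Pool.Agent.helper87.ZD.BR5
import Pool.Agent.helper90.ZD.BQL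
import Pool.Agent.helper90.ZD.CMQ
import Pool.Agent.helper90.ZD.K3B
import Pool.Agent.helper91.ZD.SYM
import Pool.Agent.helper93.ZD.BM2
import Pool.Agent.helper93.ZD.GEC
import Pool.Agent.helper94.ZD.BCF
import Pool.Agent.helper95.ZD.BSN
import Pool.Agent.helper95.ZD.BT1
import Pool.Agent.helper97.ZD.CPOW
import Pool.Agent.helper97.ZD.PHS
import Pool.Agent.helper98.ZD.SPK
import Pool.Agent.helper99.ZD.BQC
import Pool.Agent.helper99.ZD.BS1

/-! # Project zd (MP_4467b5_nt): assembly -/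

set_option autoImplicit false

namespace Pool.Agent.ZD

open Pool.Agent.helper84.DM Pool.Agent.helper78.ED Pool.Agent.DH

theorem z_mvk : MVK_stmt := MVK

theorem z_cpow : CPOW_stmt := CPOW

theorem z_cmr : CMR_stmt := CMR

theorem z_cma : CMA_stmt := CMA z_mvk z_cpow z_cmr

theorem z_cmq : CMQ_stmt := CMQ

theorem z_cmb : CMB_stmt := CMB z_mvk z_cmq

theorem z_cmc : CMC_stmt := CMC z_mvk

theorem z_bh1 : BH1_stmt := BH1

theorem z_bph : BPH_stmt := BPH

theorem z_bh2 : BH2_stmt := BH2 z_bph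

theorem z_bs1 : BS1_stmt := BS1

theorem z_bs2 : BS2_stmt := BS2

theorem z_bsp : BSP_stmt := BSP z_bs1 z_bs2

theorem z_bt1 : BT1_stmt := BT1

theorem z_bt2 : BT2_stmt := BT2

theorem z_bt3 : BT3_stmt := BT3 z_bt1

theorem z_bmu : BMU_stmt := BMU z_bph

theorem z_bhs : BHS_stmt := BHS z_bh1 z_bh2 z_bsp z_bt1 z_bt2 z_bt3 z_bmu

theorem z_bar : BAR_stmt := BAR

theorem z_bq1 : BQ1_stmt := BQ1 Pool.Agent.DH.qid

theorem z_bq2 : BQ2_stmt := BQ2 z_bq1 Pool.Agent.DH.QTR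

theorem z_bps : BPS_stmt := BPS

theorem z_bsq : BSQ_stmt := BSQ z_bps

theorem z_bm1 : BM1_stmt := BM1 z_bq1 Pool.Agent.DH.expn

theorem z_bm2 : BM2_stmt := BM2 z_bm1

theorem z_br1 : BR1_stmt := BR1 z_bq1 (Pool.Agent.DH.DUA Pool.Agent.DH.RID) Pool.Agent.DH.rsq

theorem z_br4 : BR4_stmt := BR4 z_bsq z_bm2 z_br1

theorem z_qdi : QDI_stmt := QDI

theorem z_phs : PHS_stmt := PHS

theorem z_gec : GEC_stmt := GEC z_phs

theorem z_chx : CHX_stmt := CHX z_phs

theorem z_sbo : SBO_stmt := SBO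

theorem z_rd : RD_stmt := RD z_sbo

theorem z_k2b : K2B_stmt := K2B z_chx z_phs z_rd z_sbo z_gec

theorem z_kapf : KAPF_stmt := KAPF

theorem z_npm : NPM_stmt := NPM z_kapf

theorem z_geo : GEO_stmt := GEO

theorem z_monw : MONW_stmt := MONW

theorem z_blk : BLK_stmt := BLK z_npm z_geo z_monw

theorem z_prs : PRS_stmt := PRS z_blk z_geo

theorem z_qz0 : QZ0_stmt := QZ0

theorem z_qwf : QWF_stmt := QWF

theorem z_rfs : RFS_stmt := RFS z_qdi z_gec z_k2b z_prs z_qz0 z_qwf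

theorem z_ibu : IBU_stmt := IBU z_sbo

theorem z_poi : POI_stmt := POI z_phs z_ibu

theorem z_ibz : IBZ_stmt := IBZ z_sbo

theorem z_pr2 : PR2_stmt := PR2 z_poi z_chx z_ibu z_ibz z_phs

theorem z_crd : CRD_stmt := CRD

theorem z_r3m : R3_stmt := R3M z_rfs z_pr2 z_qwf z_crd

theorem z_cdi : CDI_stmt := CDI

theorem z_k3b : K3B_stmt := K3B z_chx z_phs z_rd z_sbo z_gec

theorem z_sym : SYM_stmt := SYM

theorem z_al1 : AL1_stmt := AL1 z_cdi z_gec z_k3b z_sym

theorem z_str : STR_stmt := STR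

theorem z_spk : SPK_stmt := SPK

theorem z_bes : BES_stmt := BES

theorem z_dvs : DVS_stmt := DVS z_bes

theorem z_al2 : AL2_stmt := AL2 z_al1 z_str z_spk z_dvs z_qz0

theorem z_bsb : BSB_stmt := BSB z_chx z_phs z_ibu

theorem z_cubm : CUB_stmt := CUBM z_al2 z_pr2 z_bsb z_crd

theorem z_ba : BA_stmt := BA z_bhs z_bar z_bq2 z_bmu z_br4 z_r3m z_cubm

theorem z_bg1 : BG1_stmt := BG1

theorem z_blg : BLG_stmt := BLG

theorem z_bq0 : BQ0_stmt := BQ0 z_blg

theorem z_bc1 : BC1_stmt := BC1 z_bg1 z_bq0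

theorem z_bgd : BGD_stmt := BGD

theorem z_bls : BLS_stmt := BLS z_bg1 z_bgd z_blg

theorem z_bc2 : BC2_stmt := BC2 z_bls

theorem z_blm : BLM_stmt := BLM z_bg1

theorem z_ble : BLE_stmt := BLE

theorem z_bc3 : BC3_stmt := BC3 z_blm z_ble

theorem z_br5 : BR5_stmt := BR5 z_br1 z_br4

theorem z_bcj : BCJ_stmt := BCJ z_bc3 z_bsq z_bps z_br5

theorem z_bc5 : BC5_stmt := BC5 z_blm z_ble

theorem z_bc6 : BC6_stmt := BC6 z_bc3 z_bc5

theorem z_bc7 : BC7_stmt := BC7 z_bls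

theorem z_bcf : BCF_stmt := BCF

theorem z_bcn : BCN_stmt := BCN z_bcf

theorem z_bsn : BSN_stmt := BSN

theorem z_bc4 : BC4_stmt := BC4 z_bc6 z_bc7 z_bcn z_bsn z_br4

theorem z_bql : BQL_stmt := BQL

theorem z_bqs : BQS_stmt := BQS z_bc1 z_bc2 z_bcj z_bc4 z_bql

theorem z_bqc : BQC_stmt := BQC

theorem z_bqd : BQD_stmt := BQD

theorem z_bqf : BQF_stmt := BQF z_bqs z_bqc z_bqd

theorem z_be1 : BE1_stmt := BE1

theorem z_be2 : BE2_stmt := BE2

theorem z_bs0 : BS0_stmt := BS0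

theorem z_lvn : LVN_stmt := LVN z_ba z_bqf z_be1 z_be2 z_bs0

theorem z_cone : CONE_stmt := CONE z_cma z_cmb z_cmc z_lvn

theorem z_csep : CSEP_stmt := CSEP

theorem z_call : CALL_stmt := CALL z_cone z_csep

theorem z_ctay : CTAY_stmt := CTAY z_call Pool.Agent.DH.TAY

theorem z_ccor : CCOR_stmt := CCOR z_ctay Pool.Agent.DH.det Pool.Agent.DH.two

theorem z_csig : CSIG_stmt := CSIG z_ccor Pool.Agent.DH.cor

theorem z_zdt : ZDT_stmt := ZDT z_csig

end Pool.Agent.ZD
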