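import Pool.Agent.helper90.ZD.SpecB

set_option autoImplicit false

open Complex MeasureTheory

namespace Pool.Agent.ZD

/-- the first case -/
theorem BQL_one {P lam R T N V E y : ℝ} (hP : 0 < P) (hlam : 0 < lam) (hR : 0 < R) (hT : 0 < T)
    (hN : 0 < N) (hV : 0 < V) (hE : 1 ≤ E)
    (h1 : P * lam ^ 2 ≤ E * T * R)
    (h5 : P ^ 2 * lam ^ 4 * V ≤ E ^ 2 * (R * R ^ (1 / 2 : ℝ)) * T * N * y)
    (h6 : V ^ 2 * y ≤ 2 * E * N ^ 2 * P) :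
    P * lam ^ 3 ≤ 2 * E ^ 2 * T * (R ^ (5 / 4 : ℝ) * (N / V) ^ (3 / 2 : ℝ)) := by
  set r : ℝ := R ^ (1 / 2 : ℝ) with hr
  have hr0 : 0 < r := Real.rpow_pos_of_pos hR _
  have hE0 : 0 < E := by linarith
  -- P lam^4 V^3 ≤ 2 E^3 R r T N^3
  have h7 : P * lam ^ 4 * V ^ 3 ≤ 2 * E ^ 3 * (R * r) * T * N ^ 3 := by
    have h8 : P ^ 2 * lam ^ 4 * V * V ^ 2 ≤ E ^ 2 * (R * r) * T * N * (2 * E * N ^ 2 * P) := by
      calc P ^ 2 * lam ^ 4 * V * V ^ 2 ≤ E ^ 2 * (R * r) * T * N * y * V ^ 2 :=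
            mul_le_mul_of_nonneg_right h5 (by positivity)
        _ = E ^ 2 * (R * r) * T * N * (V ^ 2 * y) := by ring
        _ ≤ _ := mul_le_mul_of_nonneg_left h6 (by positivity)
    have h9 : P * (P * lam ^ 4 * V ^ 3) ≤ P * (2 * E ^ 3 * (R * r) * T * N ^ 3) := by
      calc P * (P * lam ^ 4 * V ^ 3) = P ^ 2 * lam ^ 4 * V * V ^ 2 := by ring
        _ ≤ _ := h8
        _ = _ := by ring
    exact le_of_mul_le_mul_left h9 hP
  have hA0 : 0 < R ^ (5 / 4 : ℝ) * (N / V) ^ (3 / 2 : ℝ) := by positivity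
  have hA1 : (R ^ (5 / 4 : ℝ)) ^ 2 = R ^ 2 * r := by
    rw [hr, ← Real.rpow_natCast, ← Real.rpow_mul hR.le, ← Real.rpow_natCast R 2,
      ← Real.rpow_add hR]
    norm_num
  have hA2 : ((N / V) ^ (3 / 2 : ℝ)) ^ 2 = (N / V) ^ 3 := by
    rw [← Real.rpow_natCast, ← Real.rpow_mul (by positivity), ← Real.rpow_natCast (N / V) 3]
    norm_num
  have h10 : (P * lam ^ 3) ^ 2 ≤
      (2 * E ^ 2 * T * (R ^ (5 / 4 : ℝ) * (N / V) ^ (3 / 2 : ℝ))) ^ 2 := by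
    have e1 : (2 * E ^ 2 * T * (R ^ (5 / 4 : ℝ) * (N / V) ^ (3 / 2 : ℝ))) ^ 2 =
        4 * E ^ 4 * T ^ 2 * (R ^ 2 * r) * (N ^ 3 / V ^ 3) := by
      calc (2 * E ^ 2 * T * (R ^ (5 / 4 : ℝ) * (N / V) ^ (3 / 2 : ℝ))) ^ 2 =
          4 * E ^ 4 * T ^ 2 * (R ^ (5 / 4 : ℝ)) ^ 2 * ((N / V) ^ (3 / 2 : ℝ)) ^ 2 := by ring
        _ = _ := by rw [hA1, hA2, div_pow]
    rw [e1]
    have h11 : P * lam ^ 4 ≤ 2 * E ^ 3 * (R * r) * T * (N ^ 3 / V ^ 3) := by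
      rw [← mul_div_assoc, le_div_iff₀ (by positivity)]
      exact h7
    calc (P * lam ^ 3) ^ 2 = (P * lam ^ 4) * (P * lam ^ 2) := by ring
      _ ≤ (2 * E ^ 3 * (R * r) * T * (N ^ 3 / V ^ 3)) * (E * T * R) :=
          mul_le_mul h11 h1 (by positivity) (by positivity)
      _ = 2 * (E ^ 4 * T ^ 2 * (R ^ 2 * r) * (N ^ 3 / V ^ 3)) := by ring
      _ ≤ 4 * (E ^ 4 * T ^ 2 * (R ^ 2 * r) * (N ^ 3 / V ^ 3)) :=
          mul_le_mul_of_nonneg_right (by norm_num) (by positivity)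
      _ = _ := by ring
  exact le_of_sq_le_sq h10 (by positivity)

/-- the second case -/
theorem BQL_two {P lam R T N V E S Y y : ℝ} (hP : 0 < P) (hlam : 0 < lam) (hR : 0 < R) (hT : 0 < T)
    (hN : 0 < N) (hV : 0 < V) (hE : 1 ≤ E) (hS : 0 ≤ S) (_hy : 0 ≤ y) (hyY : y ^ 2 = Y)
    (h5 : P ^ 2 * lam ^ 4 * V ≤ E ^ 2 * (R * R ^ (1 / 2 : ℝ)) * T * N * y)
    (h6 : V ^ 2 * Y ≤ 2 * E * (T * N * P * S / lam)) :
    P * lam ^ 3 ≤ 2 * E ^ 2 * T * (R * S ^ (1 / 3 : ℝ) * N * V ^ (-(4 / 3 : ℝ))) := by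
  set r : ℝ := R ^ (1 / 2 : ℝ) with hr
  have hr0 : 0 < r := Real.rpow_pos_of_pos hR _
  have hr2 : r ^ 2 = R := by
    rw [hr, ← Real.rpow_natCast, ← Real.rpow_mul hR.le]
    norm_num
  have hE0 : 0 < E := by linarith
  have h7 : (P ^ 2 * lam ^ 4 * V) ^ 2 ≤ (E ^ 2 * (R * r) * T * N * y) ^ 2 :=
    pow_le_pow_left₀ (by positivity) h5 2
  have h8 : P ^ 4 * lam ^ 8 * V ^ 4 ≤ E ^ 4 * R ^ 3 * T ^ 2 * N ^ 2 * (V ^ 2 * Y) := by
    calc P ^ 4 * lam ^ 8 * V ^ 4 = (P ^ 2 * lam ^ 4 * V) ^ 2 * V ^ 2 := by ring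
      _ ≤ (E ^ 2 * (R * r) * T * N * y) ^ 2 * V ^ 2 :=
          mul_le_mul_of_nonneg_right h7 (by positivity)
      _ = E ^ 4 * R ^ 2 * r ^ 2 * T ^ 2 * N ^ 2 * (V ^ 2 * y ^ 2) := by ring
      _ = _ := by rw [hr2, hyY]; ring
  have h9 : P ^ 4 * lam ^ 8 * V ^ 4 ≤ E ^ 4 * R ^ 3 * T ^ 2 * N ^ 2 *
      (2 * E * (T * N * P * S / lam)) :=
    h8.trans (mul_le_mul_of_nonneg_left h6 (by positivity))
  have h10 : P ^ 3 * lam ^ 9 * V ^ 4 ≤ 2 * E ^ 5 * (R * T * N) ^ 3 * S := by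
    have h11 : (P / lam) * (P ^ 3 * lam ^ 9 * V ^ 4) ≤
        (P / lam) * (2 * E ^ 5 * (R * T * N) ^ 3 * S) := by
      calc (P / lam) * (P ^ 3 * lam ^ 9 * V ^ 4) = P ^ 4 * lam ^ 8 * V ^ 4 := by
            field_simp
        _ ≤ _ := h9
        _ = _ := by field_simp
    exact le_of_mul_le_mul_left h11 (by positivity)
  set B : ℝ := R * S ^ (1 / 3 : ℝ) * N * V ^ (-(4 / 3 : ℝ)) with hB
  have hB0 : 0 ≤ B := by positivity
  have hS3 : (S ^ (1 / 3 : ℝ)) ^ 3 = S := by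
    rw [← Real.rpow_natCast, ← Real.rpow_mul hS]
    norm_num
  have hV3 : (V ^ (-(4 / 3 : ℝ))) ^ 3 = 1 / V ^ 4 := by
    rw [← Real.rpow_natCast, ← Real.rpow_mul hV.le]
    have e2 : (-(4 / 3 : ℝ) * ((3 : ℕ) : ℝ)) = -((4 : ℕ) : ℝ) := by norm_num
    rw [e2, Real.rpow_neg hV.le, Real.rpow_natCast, one_div]
  have hB3 : B ^ 3 = (R * N) ^ 3 * S / V ^ 4 := by
    calc B ^ 3 = (R * N) ^ 3 * (S ^ (1 / 3 : ℝ)) ^ 3 * (V ^ (-(4 / 3 : ℝ))) ^ 3 := by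
          rw [hB]; ring
      _ = _ := by rw [hS3, hV3]; ring
  have h12 : (P * lam ^ 3) ^ 3 ≤ (2 * E ^ 2 * T * B) ^ 3 := by
    have e3 : (2 * E ^ 2 * T * B) ^ 3 = 8 * E ^ 6 * (R * T * N) ^ 3 * S / V ^ 4 := by
      calc (2 * E ^ 2 * T * B) ^ 3 = 8 * E ^ 6 * T ^ 3 * B ^ 3 := by ring
        _ = _ := by rw [hB3]; ring
    rw [e3, le_div_iff₀ (by positivity)]
    have hE5 : E ^ 5 ≤ E ^ 6 := pow_le_pow_right₀ hE (by norm_num)
    have h0 : 0 ≤ (R * T * N) ^ 3 * S := by positivity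
    calc (P * lam ^ 3) ^ 3 * V ^ 4 = P ^ 3 * lam ^ 9 * V ^ 4 := by ring
      _ ≤ 2 * E ^ 5 * (R * T * N) ^ 3 * S := h10
      _ = 2 * E ^ 5 * ((R * T * N) ^ 3 * S) := by ring
      _ ≤ 8 * E ^ 6 * ((R * T * N) ^ 3 * S) := by
          refine mul_le_mul_of_nonneg_right ?_ h0
          have : 0 < E ^ 6 := by positivity
          linarith
      _ = _ := by ring
  exact le_of_pow_le_pow_left₀ (by norm_num) (by positivity) h12

/-- BQL -/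
theorem BQL : BQL_stmt := by
  intro P lam R T N V E S J Y hP hlam hR hT hN hV hE hS hJ hY h1 h2 h3 h4
  have hE0 : 0 < E := by linarith
  have hA0 : 0 ≤ R ^ (5 / 4 : ℝ) * (N / V) ^ (3 / 2 : ℝ) := by positivity
  have hB0 : 0 ≤ R * S ^ (1 / 3 : ℝ) * N * V ^ (-(4 / 3 : ℝ)) := by positivity
  rcases hP.eq_or_lt with hP0 | hP0
  · rw [← hP0, zero_mul]
    positivity
  set y : ℝ := Y ^ (1 / 2 : ℝ) with hy
  have hy0 : 0 ≤ y := Real.rpow_nonneg hY _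
  have hyY : y ^ 2 = Y := by
    rw [hy, ← Real.rpow_natCast, ← Real.rpow_mul hY]
    norm_num
  have h5 : P ^ 2 * lam ^ 4 * V ≤ E ^ 2 * (R * R ^ (1 / 2 : ℝ)) * T * N * y := by
    calc P ^ 2 * lam ^ 4 * V = lam ^ 2 * ((P * lam) ^ 2 * V) := by ring
      _ ≤ lam ^ 2 * (E * R * T * J) := mul_le_mul_of_nonneg_left h2 (by positivity)
      _ = E * R * T * (lam ^ 2 * J) := by ring
      _ ≤ E * R * T * (E * (R ^ (1 / 2 : ℝ) * N * y)) :=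
          mul_le_mul_of_nonneg_left h3 (by positivity)
      _ = _ := by ring
  rcases le_total (N ^ 2 * P * y) (T * N * P * S / lam) with h | h
  · have h6 : V ^ 2 * Y ≤ 2 * E * (T * N * P * S / lam) := by
      refine h4.trans ?_
      calc E * (N ^ 2 * P * y + T * N * P * S / lam) ≤
          E * (T * N * P * S / lam + T * N * P * S / lam) :=
            mul_le_mul_of_nonneg_left (by linarith) hE0.le
        _ = _ := by ring
    have := BQL_two hP0 hlam hR hT hN hV hE hS hy0 hyY h5 h6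
    have h0 : 0 ≤ 2 * E ^ 2 * T := by positivity
    calc P * lam ^ 3 ≤ 2 * E ^ 2 * T * (R * S ^ (1 / 3 : ℝ) * N * V ^ (-(4 / 3 : ℝ))) := this
      _ ≤ _ := mul_le_mul_of_nonneg_left (by linarith) h0
  · have h6 : V ^ 2 * Y ≤ 2 * E * (N ^ 2 * P * y) := by
      refine h4.trans ?_
      calc E * (N ^ 2 * P * y + T * N * P * S / lam) ≤
          E * (N ^ 2 * P * y + N ^ 2 * P * y) :=
            mul_le_mul_of_nonneg_left (by linarith) hE0.le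
        _ = _ := by ring
    have h0 : 0 ≤ 2 * E ^ 2 * T := by positivity
    rcases hy0.eq_or_lt with hy1 | hy1
    · exfalso
      rw [← hy1, mul_zero] at h5
      have : 0 < P ^ 2 * lam ^ 4 * V := by positivity
      linarith
    have h7 : V ^ 2 * y ≤ 2 * E * N ^ 2 * P := by
      have h8 : y * (V ^ 2 * y) ≤ y * (2 * E * N ^ 2 * P) := by
        calc y * (V ^ 2 * y) = V ^ 2 * y ^ 2 := by ring
          _ = V ^ 2 * Y := by rw [hyY]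
          _ ≤ _ := h6
          _ = _ := by ring
      exact le_of_mul_le_mul_left h8 hy1
    have := BQL_one hP0 hlam hR hT hN hV hE h1 h5 h7
    calc P * lam ^ 3 ≤ 2 * E ^ 2 * T * (R ^ (5 / 4 : ℝ) * (N / V) ^ (3 / 2 : ℝ)) := this
      _ ≤ _ := mul_le_mul_of_nonneg_left (by linarith) h0

end Pool.Agent.ZD
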