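import Pool.Agent.helper15.DH.Spec

/-!
# Project zd (MP_4467b5_nt): zero density with the constant 39/17. Definitions, interface

Paper: `/team-store/MP_4467b5_GM_helper90.md`. `IL L = Ioc L (8 L)`, `PL A u = ∑ n ∈ A, n^(-iu)`,
`DP N a u = ∑ n ∈ Ioc N (2N), a n * n^(-iu)`, `RR`, `QQ` are in `Pool.Agent.DH`
(`helper15/DH/Defs.lean`); `wg`, `SS`, `Zer`, `Zt` in `Pool.Agent.helper78.ED`; `d n`, `mult` in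
`Pool.Agent.helper84.DM`. Proved library theorems (`rsq`, `mono`, `det`, `two`, `fin`, …) are in
`Pool.Agent.helper15.DH.Assembly`, `Pool.Agent.helper24.DH.MONO`, ….
-/

set_option autoImplicit false

open Complex MeasureTheory

namespace Pool.Agent.ZD

open Pool.Agent.helper84.DM Pool.Agent.helper78.ED Pool.Agent.DH

/-- A finite set of reals in `[T, 2T]` with pairwise distances at least `T^δ`. -/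
def Sep (δ T : ℝ) (W : Finset ℝ) : Prop :=
  (∀ t ∈ W, T ≤ t ∧ t ≤ 2 * T) ∧ ∀ t ∈ W, ∀ t' ∈ W, t ≠ t' → T ^ δ ≤ |t - t'|

/-- `ρ(x) = ∑ t ∈ W, e^(itx)`. -/
noncomputable def rho (W : Finset ℝ) (x : ℝ) : ℂ := ∑ t ∈ W, Complex.exp (((t * x : ℝ) : ℂ) * I)

/-- `ρ₁(x) = ∑ t ∈ W, (t/T) e^(itx)`. -/
noncomputable def rho1 (T : ℝ) (W : Finset ℝ) (x : ℝ) : ℂ :=
  ∑ t ∈ W, ((t / T : ℝ) : ℂ) * Complex.exp (((t * x : ℝ) : ℂ) * I)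

/-- The double sum `∑ t t' ∈ W, |∑ l ∈ (L, 8L], l^(-i(t-t'))|²`. -/
noncomputable def QW (W : Finset ℝ) (L : ℕ) : ℝ :=
  ∑ t ∈ W, ∑ t' ∈ W, ‖PL (IL L) (t - t')‖ ^ 2

/-- The third moment of `ρ` on `[-5, 5]`. -/
noncomputable def q3 (W : Finset ℝ) : ℝ := ∫ x in (-5 : ℝ)..5, ‖rho W x‖ ^ 3

/-- A Dirichlet polynomial with coefficients `b` supported in `A`. -/
noncomputable def DG (A : Finset ℕ) (b : ℕ → ℂ) (u : ℝ) : ℂ :=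
  ∑ n ∈ A, b n * (n : ℂ) ^ (-((u : ℂ) * I))

/-- The smooth weight: `0 ≤ Phi ≤ 1`, `Phi = 1` on `[1, 32]`, `Phi = 0` outside `(1/2, 64)`. -/
noncomputable def Phi (y : ℝ) : ℝ :=
  Real.smoothTransition (2 * y - 1) * Real.smoothTransition ((64 - y) / 32)

/-- The smooth weight in logarithmic coordinates. -/
noncomputable def phi (x : ℝ) : ℝ := Phi (Real.exp x) * Real.exp x

/-- The smooth zeta sum `∑ k, Phi (k/X) k^(-iu)`. -/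
noncomputable def BX (X u : ℝ) : ℂ :=
  ∑ k ∈ Finset.Icc 1 ⌊64 * X⌋₊, ((Phi ((k : ℝ) / X) : ℝ) : ℂ) * (k : ℂ) ^ (-((u : ℂ) * I))

/-- `∑ k, Phi (k/X)`, the value of `BX X` at `0`. -/
noncomputable def mu (X : ℝ) : ℝ := ∑ k ∈ Finset.Icc 1 ⌊64 * X⌋₊, Phi ((k : ℝ) / X)

/-- `e(x) = exp (2 π i x)`. -/
noncomputable def ee (x : ℝ) : ℂ := Complex.exp (((2 * Real.pi * x : ℝ) : ℂ) * I)

/-- The nonzero integers `m` with `|m| ≤ M`. -/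
noncomputable def MM (M : ℕ) : Finset ℤ := (Finset.Icc (-(M : ℤ)) M).erase 0

/-- The exponential sum of the Poisson formula: `X ∑_{0 < |m| ≤ M} e(-m X e^x)`. -/
noncomputable def EE (X : ℝ) (M : ℕ) (x : ℝ) : ℂ :=
  (X : ℂ) * ∑ m ∈ MM M, ee (-((m : ℝ) * X * Real.exp x))

/-- The main term of `X^(iu) BX X u` in the Poisson formula. -/
noncomputable def Bs (X : ℝ) (M : ℕ) (u : ℝ) : ℂ :=
  ∫ x : ℝ, ((phi x : ℝ) : ℂ) * Complex.exp (-(((u * x : ℝ) : ℂ) * I)) * EE X M x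

/-- The kernel `1/(1+x²)`. -/
noncomputable def kap (x : ℝ) : ℝ := 1 / (1 + x ^ 2)

/-! ## Interface -/

/-- **R3** (final statement of part A, quadratic sum). See (R3) of the paper. -/
def R3_stmt : Prop := ∀ ε δ : ℝ, 0 < ε → 0 < δ → δ ≤ 1 / 10 → ∃ C T₀ : ℝ, 0 < C ∧
  ∀ T : ℝ, T₀ ≤ T → ∀ W : Finset ℝ, Sep δ T W → ∀ X : ℝ, T ^ (1 / 2 : ℝ) ≤ X → X ≤ T ^ (1 + δ) →
  ∀ L : ℕ, T ^ (1 + δ) / X ≤ (L : ℝ) → (L : ℝ) ≤ T ^ (6 : ℕ) →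
  (L : ℝ) * ∑ t ∈ W, ∑ t' ∈ W, (if t = t' then 0 else ‖BX X (t - t')‖ ^ 2)
    ≤ C * T ^ ε * X * QW W L

/-- The sum over the triples of distinct elements of `W` of `B(t₁-t₂) B(t₂-t₃) B(t₃-t₁)`. -/
noncomputable def CS (X : ℝ) (W : Finset ℝ) : ℂ :=
  ∑ t₁ ∈ W, ∑ t₂ ∈ W, ∑ t₃ ∈ W, (if t₁ = t₂ ∨ t₂ = t₃ ∨ t₃ = t₁ then 0 else
    BX X (t₁ - t₂) * BX X (t₂ - t₃) * BX X (t₃ - t₁))

/-- **CUB** (final statement of part A, cubic sum). See (C) of the paper. -/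
def CUB_stmt : Prop := ∀ ε δ : ℝ, 0 < ε → 0 < δ → δ ≤ 1 / 10 → ∃ C T₀ : ℝ, 0 < C ∧
  ∀ T : ℝ, T₀ ≤ T → ∀ W : Finset ℝ, Sep δ T W → ∀ X : ℝ, T ^ (1 / 2 : ℝ) ≤ X → X ≤ T ^ (1 + δ) →
  ‖CS X W‖ ≤ C * T ^ (ε + 2 * δ) * (T ^ (2 : ℕ) * (W.card : ℝ) ^ (3 / 2 : ℝ) + X * T * q3 W)

/-- **LVN** (final statement of part B): the new large values theorem, `T^(13/34) ≤ N ≤ T^(1/2)`,
outside the range of the mean value theorem for the square. -/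
def LVN_stmt : Prop := ∀ ε : ℝ, 0 < ε → ∃ δ₀ : ℝ, 0 < δ₀ ∧ ∀ δ : ℝ, 0 < δ → δ ≤ δ₀ →
  ∃ κ : ℝ, 0 < κ ∧ κ ≤ 1 ∧ ∀ C₁ : ℝ, 0 < C₁ → ∃ C T₀ : ℝ, 0 < C ∧ ∀ T : ℝ, T₀ ≤ T → ∀ σ : ℝ,
  9 / 13 ≤ σ → σ ≤ 3 / 4 → ∀ W : Finset ℝ, Sep δ T W → ∀ (N : ℕ) (a : ℕ → ℂ),
  T ^ (13 / 34 : ℝ) ≤ (N : ℝ) → (N : ℝ) ≤ T ^ (1 / 2 : ℝ) →
  (N : ℝ) ^ (2 * (2 * σ - 1)) ≤ T ^ (1 - 39 / 17 * (1 - σ)) →
  (∀ n ∈ Finset.Ioc N (2 * N), ‖a n‖ ≤ C₁ * T ^ κ) →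
  (∀ t ∈ W, (N : ℝ) ^ σ / (4 * C₁ * Real.log T) ≤ ‖DP N a t‖) →
  (W.card : ℝ) ≤ C * T ^ (39 / 17 * (1 - σ) + ε)

/-- **ZDT** (final statement of part C): zero density with the constant `39/17`. -/
def ZDT_stmt : Prop := ∀ ε : ℝ, 0 < ε → ∃ C : ℝ, 0 < C ∧ ∀ T σ : ℝ, 1 ≤ T →
  1 / 2 ≤ σ → σ ≤ 1 → ∀ Z : Finset ℂ,
  (∀ ρ ∈ Z, riemannZeta ρ = 0 ∧ σ ≤ ρ.re ∧ 0 < ρ.im ∧ ρ.im ≤ T) →
    ∑ ρ ∈ Z, (mult ρ : ℝ) ≤ C * T ^ (39 / 17 * (1 - σ) + ε)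

end Pool.Agent.ZD
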